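import Pool.Agent.J6H4.FJC.Rtr

/-!
# Poly-(abelian or locally finite) groups by functorial subgroups
-/

set_option autoImplicit false

namespace Pool.Agent.J6H4.FJC

open SimpleGraph
open Pool.Agent.Y110.FJ
open Pool.Agent.N509.TK
open Pool.Agent.N509.TX (AcylF)
open Pool.Agent.N431.CE (Es)

variable {C : ∀ (G : Type) [Group G], Prop}

/-- there is a homomorphism to a group in `C` with kernel `K` -/
def HQ (C : ∀ (G : Type) [Group G], Prop) {Γ : Type} [Group Γ] (K : Subgroup Γ) : Prop :=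
  ∃ (P : Type) (_ : Group P) (f : Γ →* P), C P ∧ ∀ g, f g = 1 ↔ g ∈ K

theorem HQ.toQn {Γ : Type} [Group Γ] {K : Subgroup Γ} (h : HQ C K) : Qn C (⊤ : Subgroup Γ) K := by
  obtain ⟨P, _, f, hP, hf⟩ := h
  exact ⟨P, inferInstance, f.comp (⊤ : Subgroup Γ).subtype, hP, fun x => hf _⟩

theorem Qn.toHQ {Γ : Type} [Group Γ] {K : Subgroup Γ} (h : Qn C (⊤ : Subgroup Γ) K) : HQ C K := by
  obtain ⟨P, _, f, hP, hf⟩ := h
  exact ⟨P, inferInstance, f.comp (Subgroup.topEquiv.symm : Γ ≃* (⊤ : Subgroup Γ)).toMonoidHom, hP,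
    fun x => hf _⟩

theorem HQ.normal {Γ : Type} [Group Γ] {K : Subgroup Γ} (h : HQ C K) : K.Normal := by
  obtain ⟨P, _, f, _, hf⟩ := h
  have h1 : K = f.ker := by
    ext x
    exact (hf x).symm
  rw [h1]
  infer_instance

/-- admissible functorial subgroups -/
def Adm (C : ∀ (G : Type) [Group G], Prop) (F : ∀ (N : Type) [Group N], Subgroup N) : Prop :=
  ∀ (Γ : Type) [Group Γ] (K : Subgroup Γ), HQ C K → HQ C ((F K).map K.subtype)

/-- functorial subgroups of normal subgroups are normal -/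
theorem Fct.normal {F : ∀ (N : Type) [Group N], Subgroup N} (hF : Fct F) {Γ : Type} [Group Γ]
    {K : Subgroup Γ} (hK : K.Normal) : ((F K).map K.subtype).Normal := by
  refine ⟨?_⟩
  rintro _ ⟨x, hx, rfl⟩ g
  obtain ⟨φ, hφ⟩ : ∃ φ : K →* K, ∀ y, (φ y : Γ) = g * y * g⁻¹ :=
    ⟨((MulAut.conj g).toMonoidHom.comp K.subtype).codRestrict K fun y => hK.conj_mem y y.2 g,
      fun y => rfl⟩
  exact ⟨_, hF _ _ φ x hx, hφ x⟩

theorem Adm.top : Adm C (fun (N : Type) [Group N] => (⊤ : Subgroup N)) := by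
  intro Γ _ K h
  have h1 : (⊤ : Subgroup K).map K.subtype = K := by
    ext x
    exact ⟨fun ⟨y, _, hy⟩ => hy ▸ y.2, fun hx => ⟨⟨x, hx⟩, trivial, rfl⟩⟩
  rw [h1]
  exact h

/-- composition -/
def cmpF (F D : ∀ (N : Type) [Group N], Subgroup N) (N : Type) [Group N] : Subgroup N :=
  (F (D N)).map (D N).subtype

theorem Fct.comp {F D : ∀ (N : Type) [Group N], Subgroup N} (hF : Fct F) (hD : Fct D) :
    Fct (cmpF F D) := by
  rintro N N' _ _ f _ ⟨x, hx, rfl⟩
  exact ⟨_, hF _ _ ((f.comp (D N).subtype).codRestrict (D N') fun y => hD N N' f y y.2) x hx, rfl⟩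

theorem Adm.comp {F D : ∀ (N : Type) [Group N], Subgroup N} (hF : Adm C F) (hF' : Fct F)
    (hD : Adm C D) : Adm C (cmpF F D) := by
  intro Γ _ K h
  have h1 := hF Γ _ (hD Γ K h)
  have h2 : (F ↥((D K).map K.subtype)).map ((D K).map K.subtype).subtype =
      (cmpF F D K).map K.subtype := by
    let e := (D K).equivMapOfInjective K.subtype K.subtype_injective
    ext x
    constructor
    · rintro ⟨y, hy, rfl⟩
      have h3 := hF' _ _ e.symm.toMonoidHom y hy
      refine ⟨_, ⟨_, h3, rfl⟩, ?_⟩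
      have h4 : ((e (e.symm y) : ↥((D K).map K.subtype)) : Γ) = ((e.symm y : D K) : K) := rfl
      rw [e.apply_symm_apply] at h4
      exact h4.symm
    · rintro ⟨_, ⟨z, hz, rfl⟩, rfl⟩
      exact ⟨_, hF' _ _ e.toMonoidHom z hz, rfl⟩
  rw [h2] at h1
  exact h1

theorem der_Fct : Fct (fun (N : Type) [Group N] => commutator N) := by
  intro N N' _ _ f x hx
  have h1 : x ∈ derivedSeries N 1 := by rwa [derivedSeries_one]
  have h2 := map_derivedSeries_le_derivedSeries f 1 ⟨x, h1, rfl⟩
  rwa [derivedSeries_one] at h2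

theorem Adm.der (hC : ClosedE C) (hsol : ∀ (S : Type) [Group S], Group.IsSolvable S → C S) :
    Adm C (fun (N : Type) [Group N] => commutator N) := by
  intro Γ _ K h
  have hF := der_Fct
  have hn := hF.normal h.normal
  refine Qn.toHQ (Qn.ext hC hsol (L := K) ?_ (Subgroup.normal_subgroupOf) 1 ?_ h.toQn)
  · rintro _ ⟨y, _, rfl⟩
    exact y.2
  · intro x hx
    rw [derivedSeries_one] at hx
    exact ⟨x, hx, rfl⟩

theorem Adm.res (hC : ClosedE C) (k : ℕ) : Adm C (Ik k) := by
  intro Γ _ K h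
  have hn := (Ik_Fct k).normal h.normal
  refine Qn.toHQ (Qn.lf hC (L := K) ?_ (Subgroup.normal_subgroupOf) ?_ h.toQn)
  · rintro _ ⟨y, _, rfl⟩
    exact y.2
  · intro A hA hfg
    have h1 := Ik_relIndex k (N := fun _ : Unit => K) (v := ()) hA
      ((Group.fg_iff_subgroup_fg A).2 hfg)
    exact h1

/-- the smallest class of groups which contains the trivial groups, and which contains `E` if it
contains the commutator subgroup of `E`, or the intersection of the kernels of all homomorphisms from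
`E` to the symmetric group of some finite degree -/
inductive PE : ∀ (E : Type) [Group E], Prop
  | triv (E : Type) [Group E] (h : ∀ x : E, x = 1) : PE E
  | der (E : Type) [Group E] (h : PE ↥(commutator E)) : PE E
  | res (E : Type) [Group E] (k : ℕ) (h : PE ↥(Ik k E)) : PE E

theorem PE.exists_fct (hC : ClosedE C)
    (hsol : ∀ (S : Type) [Group S], Group.IsSolvable S → C S) {E : Type} [Group E] (h : PE E) :
    ∃ F : ∀ (N : Type) [Group N], Subgroup N, Fct F ∧ Adm C F ∧ F E = ⊥ := by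
  induction h with
  | triv E h =>
    refine ⟨fun (N : Type) [Group N] => (⊤ : Subgroup N), fun _ _ _ _ _ _ _ => trivial, Adm.top, ?_⟩
    rw [eq_bot_iff]
    intro x _
    rw [h x]
    exact one_mem _
  | der E _ ih =>
    obtain ⟨F, h1, h2, h3⟩ := ih
    refine ⟨cmpF F (fun (N : Type) [Group N] => commutator N), h1.comp der_Fct,
      h2.comp h1 (Adm.der hC hsol), ?_⟩
    show (F ↥(commutator E)).map _ = ⊥
    rw [h3, Subgroup.map_bot]
  | res E k _ ih =>
    obtain ⟨F, h1, h2, h3⟩ := ih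
    refine ⟨cmpF F (Ik k), h1.comp (Ik_Fct k), h2.comp h1 (Adm.res hC k), ?_⟩
    show (F ↥(Ik k E)).map _ = ⊥
    rw [h3, Subgroup.map_bot]

/-- solvable groups -/
theorem PE.solv (n : ℕ) : ∀ (E : Type) [Group E], derivedSeries E n = ⊥ → PE E := by
  induction n with
  | zero =>
    intro E _ h
    refine PE.triv E fun x => ?_
    have h1 : x ∈ derivedSeries E 0 := trivial
    rw [h, Subgroup.mem_bot] at h1
    exact h1
  | succ n ih =>
    intro E _ h
    refine PE.der E (ih _ ?_)
    rw [eq_bot_iff]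
    intro x hx
    have h1 := derived_le (fun j => derivedSeries E (j + 1)) (fun j => le_rfl) n
      ⟨x, by
        show (x : E) ∈ derivedSeries E 1
        rw [derivedSeries_one]
        exact x.2⟩
    have h2 : commutator E = derivedSeries E (0 + 1) := (derivedSeries_one E).symm
    have h3 := map_derivedSeries_le_derivedSeries (Subgroup.inclusion h2.le) n ⟨x, hx, rfl⟩
    have h4 := h1 h3
    rw [h, Subgroup.mem_bot] at h4
    exact Subtype.ext h4

/-- virtually solvable groups -/
theorem PE.vsolv {E : Type} [Group E] (H : Subgroup E) (hH : H.index ≠ 0)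
    (hs : Group.IsSolvable H) : PE E := by
  obtain ⟨n, hn⟩ := hs
  exact PE.res E H.index (PE.solv n _
    (ds_sub (Subgroup.inclusion (Ik_le H hH)) (Subgroup.inclusion_injective _) le_rfl hn))

end Pool.Agent.J6H4.FJC
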