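import Mathlib

/-!
# Torsion-free nilpotent groups
-/

set_option autoImplicit false

namespace Pool.Agent.J6H4.FJC

variable {N : Type} [Group N]

/-- torsion-free -/
def Tf (N : Type) [Group N] : Prop := ∀ x : N, ∀ k : ℕ, k ≠ 0 → x ^ k = 1 → x = 1

theorem comm_of_pow (htf : Tf N) (i : ℕ) : ∀ (x y : N) (k : ℕ), k ≠ 0 →
    x ∈ Subgroup.upperCentralSeries N i → Commute (y ^ k) x → Commute y x := by
  induction i with
  | zero =>
    intro x y k _ hx _
    rw [Subgroup.upperCentralSeries_zero, Subgroup.mem_bot] at hx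
    rw [hx]
    exact Commute.one_right y
  | succ i ih =>
    intro x y k hk hx hc
    obtain ⟨w, hw⟩ : ∃ w, w = x * y * x⁻¹ * y⁻¹ := ⟨_, rfl⟩
    have hwz : w ∈ Subgroup.upperCentralSeries N i := by
      rw [hw]
      exact Subgroup.mem_upperCentralSeries_succ_iff.1 hx y
    have h1 : Commute (y ^ k) y := (Commute.refl y).pow_left k
    have h2 : Commute (y ^ k) w := by
      rw [hw]
      exact ((hc.mul_right h1).mul_right hc.inv_right).mul_right h1.inv_right
    have h3 : Commute y w := ih w y k hk hwz h2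
    have h4 : x * y * x⁻¹ = w * y := by rw [hw]; group
    have h5 : (w * y) ^ k = y ^ k := by
      rw [← h4, ← MulAut.conj_apply, ← map_pow, MulAut.conj_apply, ← hc.eq, mul_inv_cancel_right]
    rw [h3.symm.mul_pow] at h5
    have h6 : w ^ k = 1 := mul_eq_right.1 h5
    have h7 : w = 1 := htf w k hk h6
    rw [h7, one_mul] at h4
    exact (mul_inv_eq_iff_eq_mul.1 h4).symm

/-- powers determine the roots -/
theorem comm_iff_pow (htf : Tf N) [hn : Group.IsNilpotent N] {x y : N} {k : ℕ} (hk : k ≠ 0)
    (h : Commute (y ^ k) x) : Commute y x := by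
  obtain ⟨n, hn⟩ := hn.nilpotent'
  exact comm_of_pow htf n x y k hk (by rw [hn]; trivial) h

theorem Tf.quot (htf : Tf N) [hn : Group.IsNilpotent N] (i : ℕ) :
    Tf (N ⧸ Subgroup.upperCentralSeries N i) := by
  induction i with
  | zero =>
    intro x k hk hx
    obtain ⟨y, rfl⟩ := QuotientGroup.mk_surjective x
    have h1 : y ^ k ∈ Subgroup.upperCentralSeries N 0 := (QuotientGroup.eq_one_iff _).1 hx
    rw [Subgroup.upperCentralSeries_zero, Subgroup.mem_bot] at h1
    rw [htf y k hk h1]
    rfl
  | succ i ih =>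
    intro x k hk hx
    obtain ⟨y, rfl⟩ := QuotientGroup.mk_surjective x
    have h1 : y ^ k ∈ Subgroup.upperCentralSeries N (i + 1) := (QuotientGroup.eq_one_iff _).1 hx
    refine (QuotientGroup.eq_one_iff _).2 (Subgroup.mem_upperCentralSeries_succ_iff.2 fun z => ?_)
    have h2 := Subgroup.mem_upperCentralSeries_succ_iff.1 h1 z
    have h3 : Commute ((QuotientGroup.mk y : N ⧸ Subgroup.upperCentralSeries N i) ^ k)
        (QuotientGroup.mk z) := by
      have h4 : (QuotientGroup.mk (y ^ k * z * (y ^ k)⁻¹ * z⁻¹) :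
          N ⧸ Subgroup.upperCentralSeries N i) = 1 := (QuotientGroup.eq_one_iff _).2 h2
      have h5 : ((QuotientGroup.mk y : N ⧸ Subgroup.upperCentralSeries N i) ^ k) *
          (QuotientGroup.mk z) * (((QuotientGroup.mk y : N ⧸ Subgroup.upperCentralSeries N i) ^ k))⁻¹ *
          (QuotientGroup.mk z)⁻¹ = 1 := h4
      rw [mul_inv_eq_one, mul_inv_eq_iff_eq_mul] at h5
      exact h5
    have h4 : Commute (QuotientGroup.mk y : N ⧸ Subgroup.upperCentralSeries N i)
        (QuotientGroup.mk z) := comm_iff_pow ih hk h3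
    have h5 : (QuotientGroup.mk y : N ⧸ Subgroup.upperCentralSeries N i) * (QuotientGroup.mk z) *
        (QuotientGroup.mk y)⁻¹ * (QuotientGroup.mk z)⁻¹ = 1 := by
      rw [mul_inv_eq_one, mul_inv_eq_iff_eq_mul]
      exact h4
    exact (QuotientGroup.eq_one_iff _).1 h5

/-- the upper central series of a subgroup which contains a positive power of each element -/
theorem ucs_le (htf : Tf N) [hn : Group.IsNilpotent N] (E : Subgroup N)
    (hE : ∀ x : N, ∃ k : ℕ, k ≠ 0 ∧ x ^ k ∈ E) (i : ℕ) :
    ∀ x : E, x ∈ Subgroup.upperCentralSeries E i → (x : N) ∈ Subgroup.upperCentralSeries N i := by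
  induction i with
  | zero =>
    intro x hx
    rw [Subgroup.upperCentralSeries_zero, Subgroup.mem_bot] at hx
    rw [hx]
    exact one_mem _
  | succ i ih =>
    intro x hx
    refine Subgroup.mem_upperCentralSeries_succ_iff.2 fun y => ?_
    obtain ⟨k, hk, hy⟩ := hE y
    have h2 := ih _ (Subgroup.mem_upperCentralSeries_succ_iff.1 hx ⟨_, hy⟩)
    have h3 : Commute ((QuotientGroup.mk y : N ⧸ Subgroup.upperCentralSeries N i) ^ k)
        (QuotientGroup.mk (x : N)) := by
      have h4 : (QuotientGroup.mk ((x : N) * y ^ k * (x : N)⁻¹ * (y ^ k)⁻¹) :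
          N ⧸ Subgroup.upperCentralSeries N i) = 1 := (QuotientGroup.eq_one_iff _).2 h2
      have h5 : (QuotientGroup.mk (x : N)) *
          ((QuotientGroup.mk y : N ⧸ Subgroup.upperCentralSeries N i) ^ k) *
          (QuotientGroup.mk (x : N))⁻¹ *
          (((QuotientGroup.mk y : N ⧸ Subgroup.upperCentralSeries N i) ^ k))⁻¹ = 1 := h4
      rw [mul_inv_eq_one, mul_inv_eq_iff_eq_mul] at h5
      exact h5.symm
    have h4 : Commute (QuotientGroup.mk y : N ⧸ Subgroup.upperCentralSeries N i)
        (QuotientGroup.mk (x : N)) := comm_iff_pow (htf.quot i) hk h3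
    have h5 : (QuotientGroup.mk (x : N) : N ⧸ Subgroup.upperCentralSeries N i) *
        (QuotientGroup.mk y) * (QuotientGroup.mk (x : N))⁻¹ * (QuotientGroup.mk y)⁻¹ = 1 := by
      rw [mul_inv_eq_one, mul_inv_eq_iff_eq_mul]
      exact h4.symm
    exact (QuotientGroup.eq_one_iff _).1 h5

theorem ucs_ge (E : Subgroup N) (i : ℕ) :
    ∀ x : E, (x : N) ∈ Subgroup.upperCentralSeries N i → x ∈ Subgroup.upperCentralSeries E i := by
  induction i with
  | zero =>
    intro x hx
    rw [Subgroup.upperCentralSeries_zero, Subgroup.mem_bot] at hx ⊢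
    exact Subtype.ext hx
  | succ i ih =>
    intro x hx
    refine Subgroup.mem_upperCentralSeries_succ_iff.2 fun y => ih _ ?_
    exact Subgroup.mem_upperCentralSeries_succ_iff.1 hx (y : N)

/-- isomorphisms preserve the upper central series -/
theorem ucs_iso {N' : Type} [Group N'] (e : N ≃* N') (i : ℕ) :
    ∀ x : N, x ∈ Subgroup.upperCentralSeries N i → e x ∈ Subgroup.upperCentralSeries N' i := by
  induction i with
  | zero =>
    intro x hx
    rw [Subgroup.upperCentralSeries_zero, Subgroup.mem_bot] at hx ⊢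
    rw [hx, map_one]
  | succ i ih =>
    intro x hx
    refine Subgroup.mem_upperCentralSeries_succ_iff.2 fun y => ?_
    have h1 := ih _ (Subgroup.mem_upperCentralSeries_succ_iff.1 hx (e.symm y))
    simpa using h1

end Pool.Agent.J6H4.FJC
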