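import Pool.Agent.J6H4.FJC.Desc
import Pool.Agent.J6H4.FJC.Nil

/-!
# Families of nilpotent groups with compatible upper central series
-/

set_option autoImplicit false

namespace Pool.Agent.J6H4.FJC

open SimpleGraph
open Pool.Agent.Y110.FJ
open Pool.Agent.N509.TK
open Pool.Agent.N509.TX (AcylF)
open Pool.Agent.N431.CE (Es mem_Es Es_comm)

variable {C : ∀ (G : Type) [Group G], Prop}
variable {G V : Type} [Group G] [MulAction G V] {T : SimpleGraph V}

/-- the upper central series of the members of a family -/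
def uc (N : V → Subgroup G) (i : ℕ) (v : V) : Subgroup G :=
  (Subgroup.upperCentralSeries (N v) i).map (N v).subtype

/-- compatible upper central series -/
def UC (T : SimpleGraph V) (N : V → Subgroup G) : Prop :=
  ∀ v u, T.Adj v u → ∀ i, ∀ x ∈ uc N i v, x • u = u → x ∈ uc N i u

omit [MulAction G V] in
theorem uc_le (N : V → Subgroup G) (i : ℕ) (v : V) : uc N i v ≤ N v := by
  rintro _ ⟨y, _, rfl⟩
  exact y.2

omit [MulAction G V] in
theorem uc_top {N : V → Subgroup G} {i : ℕ} {v : V}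
    (h : Subgroup.upperCentralSeries (N v) i = ⊤) : uc N i v = N v := by
  refine le_antisymm (uc_le N i v) fun x hx => ⟨⟨x, hx⟩, ?_, rfl⟩
  rw [h]
  trivial

theorem uc_ser (hC : ClosedE C) (hsol : ∀ (S : Type) [Group S], Group.IsSolvable S → C S)
    {N : V → Subgroup G} (hN : CF T N) (hc : UC T N) (hnil : ∀ v, Group.IsNilpotent (N v))
    (hQ : ∀ v : V, Qn C (MulAction.stabilizer G v) (N v)) (Φ : Set (V × V)) (n : ℕ) :
    SerV C T Φ n (uc N) := by
  have hcf : ∀ i, CF T (uc N i) := by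
    intro i
    refine hN.functor (fun N _ => Subgroup.upperCentralSeries N i)
      (fun N N' _ _ e x hx => ucs_iso e i x hx) ?_
    intro u v huv x hx hxu
    exact hc v u huv.symm i _ ⟨x, hx, rfl⟩ hxu
  constructor
  · exact fun i _ => hcf i
  · intro v
    show (Subgroup.upperCentralSeries (N v) 0).map _ = ⊥
    rw [Subgroup.upperCentralSeries_zero, Subgroup.map_bot]
  · intro i _ v
    exact Subgroup.map_mono (Subgroup.upperCentralSeries_mono _ (Nat.le_succ i))
  · intro i _ v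
    have := hnil v
    have hs : Group.IsSolvable (N v) := inferInstance
    obtain ⟨j, hj⟩ := hs
    refine Qn.ext hC hsol (uc_le N i v)
      ((hcf i).sub_normal (N := fun v => MulAction.stabilizer G v) v fun m hm => hm) j ?_ (hQ v)
    intro x hx
    rw [hj, Subgroup.mem_bot] at hx
    rw [hx]
    exact one_mem _
  · intro i _ v u _
    left
    refine inf_le_right.trans (sup_le (Subgroup.commutator_le.2 ?_) le_rfl)
    rintro _ ⟨a, ha, rfl⟩ _ ⟨b, _, rfl⟩
    exact ⟨_, Subgroup.mem_upperCentralSeries_succ_iff.1 ha b, rfl⟩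

/-- **compatible upper central series** -/
theorem uc_main (hC : ClosedE C) (hsol : ∀ (S : Type) [Group S], Group.IsSolvable S → C S)
    (hA : AcylF C) (hT : T.IsTree)
    (hact : ∀ (g : G) (u v : V), T.Adj u v → T.Adj (g • u) (g • v))
    {N : V → Subgroup G} (hN : CF T N) (hc : UC T N) (hnil : ∀ v, Group.IsNilpotent (N v))
    (hQ : ∀ v : V, Qn C (MulAction.stabilizer G v) (N v))
    (hfin : ∀ v u : V, T.Adj v u → (N v).relIndex (Es G v u) ≠ 0) : C G := by
  refine main_loc hC (fun S _ h => hsol S ⟨⟨2, h⟩⟩) hA hT hact fun Φ hΦ hΦT => ?_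
  obtain ⟨n, hn⟩ := exists_bound
    (fun (e : V × V) j => Subgroup.upperCentralSeries (N e.1) j = ⊤)
    (fun e i j hij h => top_le_iff.1 (h ▸ Subgroup.upperCentralSeries_mono _ hij)) hΦ
    (fun e _ => (hnil e.1).nilpotent')
  refine ⟨n, uc N, uc_ser hC hsol hN hc hnil hQ Φ n, fun v u hvu => ?_⟩
  rw [uc_top (hn (v, u) hvu)]
  exact hfin v u (hΦT _ hvu)

/-- **compatible upper central series, the quotient is in the class** -/
theorem uc_main' (hC : ClosedE C) (hsol : ∀ (S : Type) [Group S], Group.IsSolvable S → C S)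
    (hA : AcylF C) (hT : T.IsTree)
    (hact : ∀ (g : G) (u v : V), T.Adj u v → T.Adj (g • u) (g • v))
    {N : V → Subgroup G} (hN : CF T N) (hc : UC T N) (n : ℕ)
    (hn : ∀ v, Subgroup.upperCentralSeries (N v) n = ⊤)
    {P : Type} [Group P] (f : G →* P) (hP : C P) (hf : ∀ g, f g = 1 ↔ g ∈ ⨆ v, N v) : C G := by
  have hQ : ∀ v : V, Qn C (MulAction.stabilizer G v) (N v) := by
    intro v
    refine ⟨P, inferInstance, f.comp (Subgroup.subtype _), hP, fun x => ?_⟩
    show f x = 1 ↔ _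
    rw [hf]
    exact ⟨fun h => hN.inter hT hact h x.2, fun h => Subgroup.mem_iSup_of_mem v h⟩
  refine main_glob hC (fun S _ h => hsol S ⟨⟨2, h⟩⟩) hA hT hact (uc_ser hC hsol hN hc
    (fun v => ⟨⟨n, hn v⟩⟩) hQ _ n) f hP ?_
  intro g
  rw [hf, iSup_congr fun v => uc_top (hn v)]

/-- torsion-free nilpotent groups -/
theorem UC_tf {N : V → Subgroup G} (hN : CF T N) (hnil : ∀ v, Group.IsNilpotent (N v))
    (htf : ∀ v, Tf (N v))
    (hp : ∀ v u : V, T.Adj v u → ∀ x ∈ N v, ∃ k : ℕ, k ≠ 0 ∧ x ^ k • u = u) : UC T N := by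
  rintro v u hvu i _ ⟨x, hx, rfl⟩ hxu
  have hxu : (x : G) • u = u := hxu
  have hxN : (x : G) ∈ N u := hN.cmp u v hvu.symm _ x.2 hxu
  have h1 := ucs_ge ((N u).subgroupOf (N v)) i ⟨x, hxN⟩ hx
  obtain ⟨e, he⟩ : ∃ e : ↥((N u).subgroupOf (N v)) ≃* ↥((N v).subgroupOf (N u)),
      ∀ y, (((e y : ↥((N v).subgroupOf (N u))) : N u) : G) = ((y : N v) : G) :=
    ⟨{ toFun := fun y => ⟨⟨((y : N v) : G), y.2⟩, (y : N v).2⟩
       invFun := fun y => ⟨⟨((y : N u) : G), y.2⟩, (y : N u).2⟩
       left_inv := fun _ => rfl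
       right_inv := fun _ => rfl
       map_mul' := fun _ _ => rfl }, fun _ => rfl⟩
  have h2 := ucs_iso e i _ h1
  have := hnil u
  have h3 := ucs_le (htf u) ((N v).subgroupOf (N u)) (fun y => by
    obtain ⟨k, hk, hy⟩ := hp u v hvu.symm y y.2
    exact ⟨k, hk, hN.cmp v u hvu _ (pow_mem y.2 k) hy⟩) i _ h2
  exact ⟨_, h3, he _⟩

end Pool.Agent.J6H4.FJC
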