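import Pool.Agent.N509.TK.Tq

/-!
# Compatible families of normal subgroups of vertex stabilizers

`M v` is a subgroup of the stabilizer of the vertex `v` of a tree `T`, the family is equivariant, and
`M v ∩ G_u = M u ∩ G_v` for neighbours `u`, `v`. The group generated by the `M v` meets the stabilizer of
`v` in `M v`, and the orbits of this group form a tree, on which the quotient of `G` acts.
-/

set_option autoImplicit false

namespace Pool.Agent.J6H4.FJC

open SimpleGraph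
open Pool.Agent.N509.TK

variable {G V : Type} {T : SimpleGraph V} [Group G] [MulAction G V]

/-- a compatible family of subgroups of the vertex stabilizers -/
structure CF (T : SimpleGraph V) (M : V → Subgroup G) : Prop where
  fix : ∀ v, ∀ m ∈ M v, m • v = v
  eqv : ∀ (g : G) (v : V), ∀ m ∈ M v, g * m * g⁻¹ ∈ M (g • v)
  cmp : ∀ u v, T.Adj u v → ∀ m ∈ M v, m • u = u → m ∈ M u

variable {M : V → Subgroup G} {S : Set V}

theorem CF.normal (hM : CF T M) : (⨆ v, M v).Normal := by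
  refine ⟨fun n hn g => ?_⟩
  refine Subgroup.iSup_induction (fun v => M v) (C := fun n => g * n * g⁻¹ ∈ ⨆ v, M v) hn ?_ ?_ ?_
  · intro v m hm
    exact Subgroup.mem_iSup_of_mem (g • v) (hM.eqv g v m hm)
  · simpa using one_mem _
  · intro x y hx hy
    have h1 := mul_mem hx hy
    have h2 : g * x * g⁻¹ * (g * y * g⁻¹) = g * (x * y) * g⁻¹ := by group
    rwa [h2] at h1

theorem CF.conj_iff (hM : CF T M) (g x : G) (v : V) : x ∈ M v ↔ g * x * g⁻¹ ∈ M (g • v) := by
  refine ⟨hM.eqv g v x, fun h => ?_⟩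
  have h1 := hM.eqv g⁻¹ _ _ h
  rw [inv_smul_smul] at h1
  have h2 : g⁻¹ * (g * x * g⁻¹) * g⁻¹⁻¹ = x := by group
  rwa [h2] at h1

/-- `h = m₀ m₁ ⋯ mₙ` for a walk `x = x₀, x₁, …, xₙ = y` in `S` with `mᵢ ∈ M xᵢ` -/
inductive Rep (T : SimpleGraph V) (M : V → Subgroup G) (S : Set V) : ℕ → V → G → V → Prop
  | nil {x : V} {m : G} : x ∈ S → m ∈ M x → Rep T M S 0 x m x
  | cons {x u y : V} {m h : G} {n : ℕ} : x ∈ S → T.Adj x u → m ∈ M x → Rep T M S n u h y →
      Rep T M S (n + 1) x (m * h) y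

theorem Rep.left {n : ℕ} {x y : V} {h a : G} (hr : Rep T M S n x h y) (ha : a ∈ M x) :
    Rep T M S n x (a * h) y := by
  cases hr with
  | nil h1 h2 => exact Rep.nil h1 (mul_mem ha h2)
  | cons h1 h2 h3 h4 =>
    rw [← mul_assoc]
    exact Rep.cons h1 h2 (mul_mem ha h3) h4

theorem Rep.memS {n : ℕ} {x y : V} {h : G} (hr : Rep T M S n x h y) : x ∈ S := by
  cases hr with
  | nil h1 _ => exact h1
  | cons h1 _ _ _ => exact h1

theorem Rep.append {n k : ℕ} {x y z : V} {h h' : G} (hr : Rep T M S n x h y)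
    (hr' : Rep T M S k y h' z) : Rep T M S (n + k) x (h * h') z := by
  induction hr with
  | nil h1 h2 =>
    rw [Nat.zero_add]
    exact hr'.left h2
  | cons h1 h2 h3 h4 ih =>
    rw [mul_assoc, Nat.add_right_comm]
    exact Rep.cons h1 h2 h3 (ih hr')

theorem Rep.ofWalk {x y : V} (p : T.Walk x y) (hp : ∀ z ∈ p.support, z ∈ S) :
    ∃ n, Rep T M S n x 1 y := by
  induction p with
  | nil => exact ⟨0, Rep.nil (hp _ (by simp)) (one_mem _)⟩
  | @cons a b c hab q ih =>
    obtain ⟨n, hn⟩ := ih fun z hz => hp z (by rw [Walk.support_cons]; exact List.mem_cons_of_mem _ hz)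
    refine ⟨n + 1, ?_⟩
    have h1 := Rep.cons (hp a (by simp)) hab (one_mem (M a)) hn
    rwa [one_mul] at h1

theorem Rep.exists (hS : Tv T M S) {h : G} (hh : h ∈ ⨆ s : S, M s) :
    ∀ x ∈ S, ∀ y ∈ S, ∃ n, Rep T M S n x h y := by
  refine Subgroup.iSup_induction (fun s : S => M s)
    (C := fun h => ∀ x ∈ S, ∀ y ∈ S, ∃ n, Rep T M S n x h y) hh ?_ ?_ ?_
  · intro s m hm x hx y hy
    obtain ⟨p, hp⟩ := hS.cvx x hx s s.2
    obtain ⟨q, hq⟩ := hS.cvx s s.2 y hy
    obtain ⟨n, hn⟩ := Rep.ofWalk (M := M) p hp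
    obtain ⟨k, hk⟩ := Rep.ofWalk (M := M) q hq
    have h1 := hn.append (hk.left hm)
    rw [one_mul, mul_one] at h1
    exact ⟨_, h1⟩
  · intro x hx y hy
    obtain ⟨p, hp⟩ := hS.cvx x hx y hy
    exact Rep.ofWalk (M := M) p hp
  · intro a b ha hb x hx y hy
    obtain ⟨n, hn⟩ := ha x hx y hy
    obtain ⟨k, hk⟩ := hb y hy y hy
    exact ⟨_, hn.append hk⟩

/-- a shortest representation of positive length gives the first step of the path from `x` to `h • y` -/
theorem Rep.step (hT : T.IsTree)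
    (hact : ∀ (g : G) (u v : V), T.Adj u v → T.Adj (g • u) (g • v)) (hM : CF T M)
    (hS : Tv T M S) {n : ℕ} {x y : V} {h : G} (hr : Rep T M S n x h y)
    (hmin : ∀ k < n, ¬ Rep T M S k x h y) (hn : n ≠ 0) :
    ∃ m ∈ M x, ∃ u ∈ S, T.Adj x u ∧ (∃ (k : ℕ) (h' : G), k + 1 = n ∧ Rep T M S k u h' y ∧
      h = m * h') ∧ St T x (m • u) (h • y) := by
  induction hr with
  | nil _ _ => exact absurd rfl hn
  | @cons x u y m h n hx hxu hm hr ih =>
    have hmin' : ∀ k < n, ¬ Rep T M S k u h y := fun k hk hk' =>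
      hmin (k + 1) (Nat.succ_lt_succ hk) (Rep.cons hx hxu hm hk')
    have huS := hr.memS
    refine ⟨m, hm, u, huS, hxu, ⟨n, h, rfl, hr, rfl⟩, ?_⟩
    have key : St T x u (h • y) := by
      rcases Nat.eq_zero_or_pos n with h0 | hpos
      · subst h0
        cases hr with
        | nil _ h2 =>
          rw [hM.fix _ _ h2]
          exact St_adj hxu
      · obtain ⟨m', hm', u', hu', huu', ⟨k, h', hk, hr', hh'⟩, hst⟩ := ih hmin' hpos.ne'
        refine St_trans hT hst (St_adj hxu.symm) ?_ (St_adj hxu)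
        intro heq
        -- `m' • u' = x`
        have h1 : u' = x := hS.lc u huS u' hu' x hx huu' hxu.symm m' hm' heq
        subst h1
        have h2 : m' ∈ M u' := hM.cmp u' u hxu m' hm' heq
        refine hmin k (by omega) ?_
        rw [hh', ← mul_assoc]
        exact hr'.left (mul_mem hm h2)
    have h3 := St_smul hact m key
    rw [hM.fix _ _ hm, ← mul_smul] at h3
    exact h3

theorem Rep.fix (hT : T.IsTree)
    (hact : ∀ (g : G) (u v : V), T.Adj u v → T.Adj (g • u) (g • v)) (hM : CF T M)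
    (hS : Tv T M S) {x y : V} {h : G} (hx : x ∈ S) (hy : y ∈ S) (hh : h ∈ ⨆ s : S, M s)
    (heq : h • y = x) : x = y ∧ h ∈ M x := by
  classical
  have hex := Rep.exists hS hh x hx y hy
  obtain ⟨n, hn, hmin⟩ : ∃ n, Rep T M S n x h y ∧ ∀ k < n, ¬ Rep T M S k x h y :=
    ⟨Nat.find hex, Nat.find_spec hex, fun k hk => Nat.find_min hex hk⟩
  by_cases h0 : n = 0
  · subst h0
    cases hn with
    | nil _ h2 => exact ⟨rfl, h2⟩
  · obtain ⟨m, _, u, _, _, _, hst⟩ := hn.step hT hact hM hS hmin h0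
    rw [heq] at hst
    exact absurd rfl hst.ne

theorem cover' (hT : T.IsTree)
    (hact : ∀ (g : G) (u v : V), T.Adj u v → T.Adj (g • u) (g • v)) (hS : Tv T M S)
    (hM : CF T M) (v : V) : ∃ h ∈ ⨆ s : S, M s, ∃ s ∈ S, v = h • s := by
  obtain ⟨o, ho⟩ := hS.ne
  obtain ⟨p⟩ := hT.connected.preconnected v o
  induction p with
  | nil => exact ⟨1, one_mem _, _, ho, (one_smul _ _).symm⟩
  | @cons a b c hab q ih =>
    obtain ⟨h, hh, s, hs, hb⟩ := ih ho
    have h1 := hact h⁻¹ _ _ hab.symm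
    rw [hb, inv_smul_smul] at h1
    obtain ⟨u, hu, _, r, hr, h2⟩ := hS.max s hs _ h1
    refine ⟨h * r, mul_mem hh (Subgroup.mem_iSup_of_mem ⟨s, hs⟩ hr), u, hu, ?_⟩
    rw [mul_smul, h2, smul_inv_smul]

theorem iSup_eq (hT : T.IsTree)
    (hact : ∀ (g : G) (u v : V), T.Adj u v → T.Adj (g • u) (g • v)) (hM : CF T M)
    (hS : Tv T M S) : (⨆ v, M v) = ⨆ s : S, M s := by
  refine le_antisymm (iSup_le fun v m hm => ?_) (iSup_le fun s => le_iSup M (s : V))
  obtain ⟨h, hh, s, hs, rfl⟩ := cover' hT hact hS hM v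
  have h1 := hM.eqv h⁻¹ _ m hm
  rw [inv_smul_smul, inv_inv] at h1
  have h2 : h⁻¹ * m * h ∈ ⨆ s : S, M s := Subgroup.mem_iSup_of_mem ⟨s, hs⟩ h1
  have h3 := mul_mem (mul_mem hh h2) (inv_mem hh)
  have h4 : h * (h⁻¹ * m * h) * h⁻¹ = m := by group
  rwa [h4] at h3

/-- a transversal is a transversal of the orbits of the group generated by the family -/
theorem CF.tq (hT : T.IsTree)
    (hact : ∀ (g : G) (u v : V), T.Adj u v → T.Adj (g • u) (g • v)) (hM : CF T M)
    (hS : Tv T M S) : Tq T (⨆ v, M v) S where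
  ne := hS.ne
  cvx := hS.cvx
  cover v := by
    rw [iSup_eq hT hact hM hS]
    exact cover' hT hact hS hM v
  trans h hh s hs s' hs' heq := by
    rw [iSup_eq hT hact hM hS] at hh
    exact (Rep.fix hT hact hM hS hs' hs hh heq).1.symm
  max s hs w h := by
    obtain ⟨u, hu, h1, r, hr, h2⟩ := hS.max s hs w h
    exact ⟨u, hu, h1, r, le_iSup M s hr, hM.fix s r hr, h2⟩

/-- the group generated by the family meets the stabilizer of `v` in `M v` -/
theorem CF.inter (hT : T.IsTree)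
    (hact : ∀ (g : G) (u v : V), T.Adj u v → T.Adj (g • u) (g • v)) (hM : CF T M)
    {h : G} (hh : h ∈ ⨆ v, M v) {v : V} (hv : h • v = v) : h ∈ M v := by
  obtain ⟨S, hS⟩ := Tv.exists (R := M) hT
  obtain ⟨k, hk, s, hs, rfl⟩ := cover' hT hact hS hM v
  have h1 : k⁻¹ * h * k ∈ ⨆ s : S, M s := by
    rw [iSup_eq hT hact hM hS] at hh
    exact mul_mem (mul_mem (inv_mem hk) hh) hk
  have h2 : (k⁻¹ * h * k) • s = s := by
    rw [mul_smul, mul_smul, hv, inv_smul_smul]
  have h3 := (Rep.fix hT hact hM hS hs hs h1 h2).2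
  have h4 := hM.eqv k s _ h3
  have h5 : k * (k⁻¹ * h * k) * k⁻¹ = h := by group
  rwa [h5] at h4

end Pool.Agent.J6H4.FJC
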