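import Pool.Agent.J6H4.FJC.Fam

/-!
# Descending series with abelian factors
-/

set_option autoImplicit false

namespace Pool.Agent.J6H4.FJC

open SimpleGraph
open Pool.Agent.Y110.FJ
open Pool.Agent.N509.TK
open Pool.Agent.N509.TX (AcylF)
open Pool.Agent.N431.CE (Es mem_Es Es_comm)

variable {C : ∀ (G : Type) [Group G], Prop}
variable {G V : Type} [Group G] [MulAction G V] {T : SimpleGraph V}

/-- compatible descending series with abelian factors -/
structure Des (T : SimpleGraph V) (D : ℕ → V → Subgroup G) : Prop where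
  cf : ∀ j, CF T (D j)
  anti : ∀ j v, D (j + 1) v ≤ D j v
  com : ∀ j v, ⁅D j v, D j v⁆ ≤ D (j + 1) v

theorem Des.derived {D : ℕ → V → Subgroup G} (hD : Des T D) (v : V) (j : ℕ) :
    ∀ x ∈ derivedSeries (D 0 v) j, (x : G) ∈ D j v := by
  have key : (derivedSeries (D 0 v) j).map (D 0 v).subtype ≤ D j v := by
    induction j with
    | zero =>
      rintro _ ⟨x, _, rfl⟩
      exact x.2
    | succ j ih =>
      rw [derivedSeries_succ, Subgroup.map_commutator]
      exact (Subgroup.commutator_mono ih ih).trans (hD.com j v)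
  exact fun x hx => key ⟨x, hx, rfl⟩

theorem Des.mono {D : ℕ → V → Subgroup G} (hD : Des T D) (v : V) {i j : ℕ} (h : i ≤ j) :
    D j v ≤ D i v := by
  induction h with
  | refl => exact le_rfl
  | step _ ih => exact (hD.anti _ v).trans ih

/-- the ascending series -/
def asc (D : ℕ → V → Subgroup G) (n : ℕ) : ℕ → V → Subgroup G
  | 0, _ => ⊥
  | i + 1, v => D (n - i) v

/-- the series given by a descending series -/
theorem Des.ser (hC : ClosedE C) (hsol : ∀ (S : Type) [Group S], Group.IsSolvable S → C S)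
    (hV : ∀ v : V, C ↥(MulAction.stabilizer G v)) {D : ℕ → V → Subgroup G} (hD : Des T D)
    (hQ : ∀ v : V, Qn C (MulAction.stabilizer G v) (D 0 v)) {Φ : Set (V × V)} {n : ℕ}
    (hn : ∀ v u : V, (v, u) ∈ Φ → ∀ x ∈ Es G v u, x ∈ D n v → x = 1) :
    SerV C T Φ (n + 1) (asc D n) := by
  constructor
  · intro i _
    cases i with
    | zero => exact CF_bot
    | succ i => exact hD.cf _
  · intro v
    rfl
  · intro i hi v
    cases i with
    | zero => exact bot_le
    | succ i => exact hD.mono v (by omega)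
  · intro i _ v
    cases i with
    | zero => exact Qn.bot (hV v)
    | succ i =>
      exact Qn.ext hC hsol (hD.mono v (Nat.zero_le _))
        ((hD.cf (n - i)).sub_normal (N := fun v => MulAction.stabilizer G v) v fun m hm => hm) _
        (hD.derived v _) (hQ v)
  · intro i hi v u hvu
    left
    cases i with
    | zero =>
      rintro x ⟨hx1, hx2⟩
      have h1 : ⁅asc D n (0 + 1) v, asc D n (0 + 1) v⁆ ⊔ asc D n 0 v ≤ D n v := by
        refine sup_le (Subgroup.commutator_le.2 fun a ha b hb => ?_) bot_le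
        exact mul_mem (mul_mem (mul_mem ha hb) (inv_mem ha)) (inv_mem hb)
      exact hn v u hvu x hx1 (h1 hx2)
    | succ i =>
      have h1 : n - i = n - (i + 1) + 1 := by omega
      have h2 : ⁅asc D n (i + 1 + 1) v, asc D n (i + 1 + 1) v⁆ ⊔ asc D n (i + 1) v ≤
          asc D n (i + 1) v := by
        refine sup_le ?_ le_rfl
        show ⁅D (n - (i + 1)) v, D (n - (i + 1)) v⁆ ≤ D (n - i) v
        rw [h1]
        exact hD.com _ v
      exact inf_le_right.trans h2

/-- **compatible descending series** -/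
theorem Des.main (hC : ClosedE C) (hsol : ∀ (S : Type) [Group S], Group.IsSolvable S → C S)
    (hA : AcylF C) (hT : T.IsTree)
    (hact : ∀ (g : G) (u v : V), T.Adj u v → T.Adj (g • u) (g • v))
    (hV : ∀ v : V, C ↥(MulAction.stabilizer G v)) {D : ℕ → V → Subgroup G} (hD : Des T D)
    (hQ : ∀ v : V, Qn C (MulAction.stabilizer G v) (D 0 v))
    (hfin : ∀ v u : V, T.Adj v u → (D 0 v).relIndex (Es G v u) ≠ 0)
    (hE : ∀ v u : V, T.Adj v u → ∃ j, ∀ x ∈ Es G v u, x ∈ D j v → x = 1) : C G := by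
  refine main_loc hC (fun S _ h => hsol S ⟨⟨2, h⟩⟩) hA hT hact fun Φ hΦ hΦT => ?_
  obtain ⟨n, hn⟩ := exists_bound (fun (e : V × V) j => ∀ x ∈ Es G e.1 e.2, x ∈ D j e.1 → x = 1)
    (fun e i j hij h x hx hx2 => h x hx (hD.mono e.1 hij hx2)) hΦ
    (fun e he => hE e.1 e.2 (hΦT e he))
  refine ⟨n + 1, asc D n, hD.ser hC hsol hV hQ fun v u hvu => hn (v, u) hvu, fun v u hvu => ?_⟩
  show (D (n - n) v).relIndex (Es G v u) ≠ 0
  rw [Nat.sub_self]
  exact hfin v u (hΦT _ hvu)

/-- **compatible descending series, the quotient by the group generated by the family is in `C`** -/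
theorem Des.main' (hC : ClosedE C) (hsol : ∀ (S : Type) [Group S], Group.IsSolvable S → C S)
    (hA : AcylF C) (hT : T.IsTree)
    (hact : ∀ (g : G) (u v : V), T.Adj u v → T.Adj (g • u) (g • v))
    (hV : ∀ v : V, C ↥(MulAction.stabilizer G v)) {D : ℕ → V → Subgroup G} (hD : Des T D)
    {P : Type} [Group P] (f : G →* P) (hP : C P) (hf : ∀ g, f g = 1 ↔ g ∈ ⨆ v, D 0 v) (n : ℕ)
    (hE : ∀ v u : V, T.Adj v u → ∀ x ∈ Es G v u, x ∈ D n v → x = 1) : C G := by
  have hQ : ∀ v : V, Qn C (MulAction.stabilizer G v) (D 0 v) := by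
    intro v
    refine ⟨P, inferInstance, f.comp (Subgroup.subtype _), hP, fun x => ?_⟩
    show f x = 1 ↔ _
    rw [hf]
    exact ⟨fun h => (hD.cf 0).inter hT hact h x.2, fun h => Subgroup.mem_iSup_of_mem v h⟩
  refine main_glob hC (fun S _ h => hsol S ⟨⟨2, h⟩⟩) hA hT hact (hD.ser hC hsol hV hQ (n := n)
    fun v u hvu => hE v u hvu) f hP ?_
  show ∀ g, f g = 1 ↔ g ∈ ⨆ v, D (n - n) v
  rwa [Nat.sub_self]

/-- the intersection of the edge group with `N` is a retract of `N` -/
def Ret {G : Type} [Group G] (N E : Subgroup G) : Prop :=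
  ∃ ρ : N →* G, (∀ x, ρ x ∈ N ⊓ E) ∧ ∀ x : N, (x : G) ∈ E → ρ x = x

theorem iso_derived (j : ℕ) (N N' : Type) [Group N] [Group N'] (e : N ≃* N') :
    ∀ x ∈ derivedSeries N j, e x ∈ derivedSeries N' j := fun x hx =>
  map_derivedSeries_le_derivedSeries e.toMonoidHom j ⟨x, hx, rfl⟩

theorem Ret.derived {N E : Subgroup G} (h : Ret N E) {x : N} (hx : (x : G) ∈ E) {j : ℕ}
    (hj : x ∈ derivedSeries N j) :
    (⟨x, x.2, hx⟩ : ↥(N ⊓ E)) ∈ derivedSeries ↥(N ⊓ E) j := by
  obtain ⟨ρ, h1, h2⟩ := h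
  have h3 := map_derivedSeries_le_derivedSeries (ρ.codRestrict (N ⊓ E) h1) j ⟨x, hj, rfl⟩
  have h4 : (ρ.codRestrict (N ⊓ E) h1) x = ⟨x, x.2, hx⟩ := Subtype.ext (h2 x hx)
  rwa [h4] at h3

/-- the derived series of the members of a family -/
def ds (N : V → Subgroup G) (j : ℕ) (v : V) : Subgroup G :=
  (derivedSeries (N v) j).map (N v).subtype

omit [MulAction G V] in
theorem ds_zero (N : V → Subgroup G) (v : V) : ds N 0 v = N v := by
  ext x
  constructor
  · rintro ⟨y, _, rfl⟩
    exact y.2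
  · intro hx
    exact ⟨⟨x, hx⟩, Subgroup.mem_top _, rfl⟩

theorem ds_Des {N : V → Subgroup G} (hN : CF T N)
    (hR : ∀ v u : V, T.Adj v u → Ret (N v) (Es G v u)) : Des T (ds N) := by
  constructor
  · intro j
    refine hN.functor (fun N _ => derivedSeries N j) (iso_derived j) ?_
    intro u v huv x hx hxu
    have h1 : (x : G) ∈ Es G v u := ⟨hN.fix v _ x.2, hxu⟩
    have h2 := (hR v u huv.symm).derived h1 hx
    have hle : N v ⊓ Es G v u ≤ N u := fun y hy => hN.cmp u v huv y hy.1 hy.2.2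
    have h3 := map_derivedSeries_le_derivedSeries (Subgroup.inclusion hle) j ⟨_, h2, rfl⟩
    exact ⟨_, h3, rfl⟩
  · intro j v
    exact Subgroup.map_mono (derivedSeries_antitone _ (Nat.le_succ j))
  · intro j v
    show ⁅(derivedSeries (N v) j).map _, (derivedSeries (N v) j).map _⁆ ≤ _
    rw [← Subgroup.map_commutator]
    exact Subgroup.map_mono le_rfl

theorem ds_bot {N : V → Subgroup G} {v u : V} (hR : Ret (N v) (Es G v u)) {j : ℕ}
    (hj : derivedSeries ↥(N v ⊓ Es G v u) j = ⊥) : ∀ x ∈ Es G v u, x ∈ ds N j v → x = 1 := by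
  rintro _ hx ⟨y, hy, rfl⟩
  have h2 := hR.derived hx hy
  rw [hj, Subgroup.mem_bot] at h2
  exact congrArg Subtype.val h2

end Pool.Agent.J6H4.FJC
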