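import Pool.Agent.J6H4.FJC.Adm

/-!
# Edge groups detected by homomorphisms to groups in the class
-/

set_option autoImplicit false

namespace Pool.Agent.J6H4.FJC

open SimpleGraph
open Pool.Agent.Y110.FJ
open Pool.Agent.N509.TK
open Pool.Agent.N509.TX (AcylF)
open Pool.Agent.N431.CE (Es mem_Es)

variable {C : ∀ (G : Type) [Group G], Prop}
variable {G V : Type} [Group G] [MulAction G V] {T : SimpleGraph V}

/-- the stabilizer `E` of the edge is detected by a homomorphism of `G` to a group in `C` -/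
def DE (C : ∀ (G : Type) [Group G], Prop) (G : Type) {V : Type} [Group G] [MulAction G V]
    (v u : V) : Prop :=
  ∃ (P : Type) (_ : Group P) (f : G →* P), C P ∧ ∀ x ∈ Es G v u, f x = 1 → x = 1

theorem DE.finset (hC : ClosedE C) (Φ : Finset (V × V)) (h : ∀ e ∈ Φ, DE C G e.1 e.2) :
    ∃ (P : Type) (_ : Group P) (f : G →* P), C P ∧
      ∀ e ∈ Φ, ∀ x ∈ Es G e.1 e.2, f x = 1 → x = 1 := by
  classical
  induction Φ using Finset.induction_on with
  | empty => exact ⟨PUnit, inferInstance, 1, C_triv hC, fun e he => absurd he (Finset.notMem_empty e)⟩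
  | insert a Φ _ ih =>
    obtain ⟨P, _, f, hP, hf⟩ := ih fun e he => h e (Finset.mem_insert_of_mem he)
    obtain ⟨P', _, f', hP', hf'⟩ := h a (Finset.mem_insert_self _ _)
    refine ⟨P × P', inferInstance, f.prod f', hC.base.prod _ _ hP hP', ?_⟩
    intro e he x hx h1
    rcases Finset.mem_insert.1 he with rfl | he
    · exact hf' x hx (congrArg Prod.snd h1)
    · exact hf e he x hx (congrArg Prod.fst h1)

/-- **detected edge groups** -/
theorem edge_crit (hC : ClosedE C) (hM : ∀ (G : Type) [Group G], derivedSeries G 2 = ⊥ → C G)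
    (hA : AcylF C) (hT : T.IsTree)
    (hact : ∀ (g : G) (u v : V), T.Adj u v → T.Adj (g • u) (g • v))
    (hV : ∀ v : V, C ↥(MulAction.stabilizer G v)) (hE : ∀ v u : V, T.Adj v u → DE C G v u) :
    C G := by
  refine local_red hC hT hact ?_
  intro H Φ W _ T' ι hι he hT' hact' ha hΦ hΦT
  obtain ⟨P, _, f, hP, hf⟩ := DE.finset hC Φ fun e he => hE e.1 e.2 (hΦT e he)
  have hf' : ∀ x y, T'.Adj x y → ∀ g ∈ Es G (ι x) (ι y), f g = 1 → g = 1 := by
    intro x y hxy g hg hg1
    obtain ⟨h, h1⟩ := hΦ x y hxy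
    have h2 : h * g * h⁻¹ ∈ Es G (h • ι x) (h • ι y) := by
      have h3 : g • ι x = ι x := hg.1
      have h4 : g • ι y = ι y := hg.2
      constructor
      · show (h * g * h⁻¹) • h • ι x = h • ι x
        rw [mul_smul, mul_smul, inv_smul_smul, h3]
      · show (h * g * h⁻¹) • h • ι y = h • ι y
        rw [mul_smul, mul_smul, inv_smul_smul, h4]
    have h3 : f (h * g * h⁻¹) = 1 := by
      rw [map_mul, map_mul, hg1, mul_one, ← map_mul, mul_inv_cancel, map_one]
    have h4 : h * g * h⁻¹ = 1 := by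
      rcases h1 with h1 | h1
      · exact hf _ h1 _ h2 h3
      · exact hf _ h1 _ ⟨h2.2, h2.1⟩ h3
    have h5 : g = h⁻¹ * (h * g * h⁻¹) * h := by group
    rw [h5, h4]
    group
  refine Pool.Agent.J6H95.FJ.crit hC hM hA hT' hact' (LR_true (G := H) (T := T')) ?_ ?_ ?_
  · intro x
    refine hC.base.of_injective _ _ ((H.subtype.comp (Subgroup.subtype
      (MulAction.stabilizer H x))).codRestrict (MulAction.stabilizer G (ι x)) ?_) ?_ (hV (ι x))
    · rintro ⟨z, hz⟩
      have hz : z • x = x := hz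
      show (z : G) • ι x = ι x
      rw [← he, hz]
    · intro a b hab
      have h1 := congrArg Subtype.val hab
      exact Subtype.ext (Subtype.ext h1)
  · intro v a _ _
    exact ⟨0, fun b _ _ h => absurd trivial h⟩
  · intro v u hvu _
    refine ⟨MulAction.stabilizer H v, PUnit, inferInstance, 1, P, inferInstance, f.comp H.subtype,
      C_triv hC, hP, fun g hg _ => hg, fun _ _ _ _ _ _ => rfl, fun x hx hx2 => ?_⟩
    have h1 : f (x : G) = 1 := by
      have hle : ⁅(1 : ↥(MulAction.stabilizer H v) →* PUnit).ker.map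
          (Subgroup.subtype (MulAction.stabilizer H v)) ⊓ (f.comp H.subtype).ker,
          (1 : ↥(MulAction.stabilizer H v) →* PUnit).ker.map
          (Subgroup.subtype (MulAction.stabilizer H v)) ⊓ (f.comp H.subtype).ker⁆ ≤
          (f.comp H.subtype).ker := by
        refine Subgroup.commutator_le.2 fun a ha b hb => ?_
        exact mul_mem (mul_mem (mul_mem ha.2 hb.2) (inv_mem ha.2)) (inv_mem hb.2)
      exact hle hx2
    have h2 : (x : G) ∈ Es G (ι v) (ι u) := by
      have h3 : x • v = v := hx.1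
      have h4 : x • u = u := hx.2
      constructor
      · show (x : G) • ι v = ι v
        rw [← he, h3]
      · show (x : G) • ι u = ι u
        rw [← he, h4]
    exact Subtype.ext (hf' v u hvu _ h2 h1)

/-- **retracts** -/
theorem ret_main (hC : ClosedE C) (hsol : ∀ (S : Type) [Group S], Group.IsSolvable S → C S)
    (hA : AcylF C) (hT : T.IsTree)
    (hact : ∀ (g : G) (u v : V), T.Adj u v → T.Adj (g • u) (g • v))
    (hV : ∀ v : V, C ↥(MulAction.stabilizer G v)) {N : V → Subgroup G} (hN : CF T N)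
    (hR : ∀ v u : V, T.Adj v u → Ret (N v) (Es G v u)) (hB : TopB C N)
    (hE : ∀ v u : V, T.Adj v u → PE ↥(N v ⊓ Es G v u)) : C G := by
  refine edge_crit hC (fun S _ h => hsol S ⟨⟨2, h⟩⟩) hA hT hact hV fun v u hvu => ?_
  obtain ⟨F, hF, hadm, hFE⟩ := (hE v u hvu).exists_fct hC hsol
  obtain ⟨P, _, f, hP, hf⟩ := hadm G (⨆ v, N v) hB
  refine ⟨P, inferInstance, f, hP, fun x hx h1 => ?_⟩
  obtain ⟨y, hy, rfl⟩ := fct_inter hT hact hN hR hF ((hf x).1 h1) hx.1
  have h2 := (hR v u hvu).fct hF hx hy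
  rw [hFE, Subgroup.mem_bot] at h2
  exact congrArg Subtype.val h2

/-- the condition (A) implies (B) -/
theorem TopA.toB (hC : ClosedE C) (hM : ∀ (G : Type) [Group G], derivedSeries G 2 = ⊥ → C G)
    (hA : AcylF C) (hT : T.IsTree)
    (hact : ∀ (g : G) (u v : V), T.Adj u v → T.Adj (g • u) (g • v))
    (hV : ∀ v : V, C ↥(MulAction.stabilizer G v)) {N : V → Subgroup G} (hN : CF T N)
    (h : TopA C T N) : TopB C N := by
  obtain ⟨M, hM0, hM1⟩ : ∃ M : ℕ → V → Subgroup G, M 0 = (fun _ => ⊥) ∧ M 1 = N :=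
    ⟨fun i => if i = 0 then (fun _ => ⊥) else N, by simp, by simp⟩
  have h1 : Ser1 C T (0 + 1) M := by
    refine ⟨?_, fun v => by rw [hM0], ?_, ?_, ?_, ?_⟩
    · intro i hi
      interval_cases i
      · rw [hM0]
        exact CF_bot
      · rw [hM1]
        exact hN
    · intro i hi v
      interval_cases i
      rw [hM0]
      exact bot_le
    · intro i hi v
      interval_cases i
      · rw [hM0]
        exact Qn.bot (hV v)
      · rw [hM1]
        exact h.1 v
    · intro i h1 h2
      omega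
    · left
      rw [show (0 + 1 : ℕ) = 1 from rfl, hM1]
      exact h.2
  have h2 := h1.quotC hC hM hA hT hact
  rw [hM1] at h2
  exact h2

end Pool.Agent.J6H4.FJC
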