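import Pool.Agent.J6H4.FJC.Loc2
import Pool.Agent.R942.FJ.Det

/-!
# Families given by characteristic subgroups
-/

set_option autoImplicit false

namespace Pool.Agent.J6H4.FJC

open SimpleGraph
open Pool.Agent.Y110.FJ
open Pool.Agent.N509.TK
open Pool.Agent.N431.CE (Es mem_Es Es_comm)

variable {C : ∀ (G : Type) [Group G], Prop}
variable {G V : Type} [Group G] [MulAction G V] {T : SimpleGraph V}

theorem CF_bot : CF T (fun _ => (⊥ : Subgroup G)) := by
  constructor
  · rintro v m hm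
    rw [Subgroup.mem_bot.1 hm, one_smul]
  · rintro g v m hm
    rw [Subgroup.mem_bot.1 hm]
    simp
  · intro u v _ m hm _
    exact hm

theorem CF_stab : CF T (fun v => MulAction.stabilizer G v) := by
  constructor
  · exact fun v m hm => hm
  · intro g v m hm
    have hm : m • v = v := hm
    show (g * m * g⁻¹) • g • v = g • v
    rw [mul_smul, mul_smul, inv_smul_smul, hm]
  · exact fun u v _ m _ h => h

/-- characteristic subgroups -/
theorem CF.functor {N : V → Subgroup G} (hN : CF T N) (F : ∀ (N : Type) [Group N], Subgroup N)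
    (hF : ∀ (N N' : Type) [Group N] [Group N'] (e : N ≃* N'), ∀ x ∈ F N, e x ∈ F N')
    (hc : ∀ u v, T.Adj u v → ∀ x : N v, x ∈ F (N v) → (x : G) • u = u →
      (x : G) ∈ (F (N u)).map (N u).subtype) :
    CF T (fun v => (F (N v)).map (N v).subtype) := by
  constructor
  · rintro v _ ⟨m, hm, rfl⟩
    exact hN.fix v _ m.2
  · rintro g v _ ⟨m, hm, rfl⟩
    obtain ⟨e, he⟩ : ∃ e : N v ≃* N (g • v), ∀ x, ((e x : N (g • v)) : G) = g * x * g⁻¹ := by
      refine ⟨((N v).equivMapOfInjective (cg g) (cg_inj g)).trans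
        (MulEquiv.subgroupCongr (hN.map_cg g v)), fun x => rfl⟩
    exact ⟨e m, hF _ _ e m hm, he m⟩
  · rintro u v huv _ ⟨m, hm, rfl⟩ hmu
    exact hc u v huv m hm hmu

theorem CF.sub_normal {K N : V → Subgroup G} (hK : CF T K) (v : V)
    (hN : ∀ m ∈ N v, m • v = v) : ((K v).subgroupOf (N v)).Normal := by
  refine ⟨fun x hx g => ?_⟩
  have h1 := hK.eqv (g : G) v _ hx
  rw [hN g g.2] at h1
  exact h1

/-- quotients by a member of a family -/
theorem Qn.self (hC : ∀ (S : Type) [Group S], Group.IsSolvable S → C S) {H K : Subgroup G}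
    (hn : (K.subgroupOf H).Normal) (j : ℕ) (hj : derivedSeries H j ≤ K.subgroupOf H) :
    Qn C H K := by
  refine ⟨H ⧸ K.subgroupOf H, inferInstance, QuotientGroup.mk' _, hC _ ⟨⟨j, ?_⟩⟩,
    fun x => QuotientGroup.eq_one_iff x⟩
  rw [← map_derivedSeries_eq (QuotientGroup.mk'_surjective (K.subgroupOf H)), eq_bot_iff]
  rintro _ ⟨x, hx, rfl⟩
  exact (QuotientGroup.eq_one_iff x).2 (hj hx)

theorem Qn.bot {H : Subgroup G} (h : C H) : Qn C H ⊥ :=
  ⟨H, inferInstance, MonoidHom.id _, h, fun x => by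
    rw [MonoidHom.id_apply, Subgroup.mem_bot, OneMemClass.coe_eq_one]⟩

/-- extensions with solvable kernels -/
theorem solv_ext (hC : ClosedE C) (hsol : ∀ (S : Type) [Group S], Group.IsSolvable S → C S)
    {G : Type} [Group G] (N : Subgroup G) [N.Normal] (hN : Group.IsSolvable N)
    (hQ : C (G ⧸ N)) : C G :=
  Pool.Agent.Y529.FJ.t_ext C hC G N (hsol _ hN) hQ fun g _ =>
    hsol _ (Pool.Agent.R942.FJ.solv_sup N hN g)

/-- quotients by smaller subgroups -/
theorem Qn.ext (hC : ClosedE C) (hsol : ∀ (S : Type) [Group S], Group.IsSolvable S → C S)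
    {H K L : Subgroup G} (hKL : K ≤ L) (hn : (K.subgroupOf H).Normal) (j : ℕ)
    (hL : ∀ x ∈ derivedSeries L j, (x : G) ∈ K) (h : Qn C H L) : Qn C H K := by
  obtain ⟨P, _, f, hP, hf⟩ := h
  refine ⟨H ⧸ K.subgroupOf H, inferInstance, QuotientGroup.mk' _, ?_,
    fun x => QuotientGroup.eq_one_iff x⟩
  obtain ⟨f', hf'⟩ : ∃ f' : H ⧸ K.subgroupOf H →* P, ∀ x, f' (QuotientGroup.mk x) = f x :=
    ⟨QuotientGroup.lift _ f fun x hx => (hf x).2 (hKL hx), fun x => rfl⟩
  have hker : ∀ x ∈ derivedSeries f.ker j, (x : H) ∈ K.subgroupOf H := by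
    obtain ⟨ψ, hψ⟩ : ∃ ψ : f.ker →* L, ∀ x, (ψ x : G) = x :=
      ⟨(H.subtype.comp f.ker.subtype).codRestrict _ fun x => (hf _).1 x.2, fun x => rfl⟩
    intro x hx
    have h1 := hL _ (map_derivedSeries_le_derivedSeries ψ j ⟨x, hx, rfl⟩)
    rwa [hψ] at h1
  have hker' : Group.IsSolvable f'.ker := by
    obtain ⟨ψ, hψ⟩ : ∃ ψ : f.ker →* f'.ker, ∀ x, (ψ x : H ⧸ K.subgroupOf H) =
        QuotientGroup.mk (x : H) :=
      ⟨((QuotientGroup.mk' _).comp f.ker.subtype).codRestrict _ fun x =>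
        (hf' x).trans x.2, fun x => rfl⟩
    have hs : Function.Surjective ψ := by
      rintro ⟨x, hx⟩
      obtain ⟨y, rfl⟩ := QuotientGroup.mk_surjective x
      have h1 : f y = 1 := (hf' y).symm.trans hx
      exact ⟨⟨y, h1⟩, Subtype.ext (hψ _)⟩
    refine ⟨⟨j, ?_⟩⟩
    rw [← map_derivedSeries_eq hs, eq_bot_iff]
    rintro _ ⟨x, hx, rfl⟩
    rw [Subgroup.mem_bot]
    refine Subtype.ext ((hψ x).trans ?_)
    exact (QuotientGroup.eq_one_iff _).2 (hker x hx)
  refine solv_ext hC hsol f'.ker hker' ?_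
  exact hC.base.of_injective _ _ (QuotientGroup.kerLift f') (QuotientGroup.kerLift_injective f') hP

/-- a uniform bound -/
theorem exists_bound {A : Type} (p : A → ℕ → Prop) (hp : ∀ a i j, i ≤ j → p a i → p a j)
    {Φ : Set A} (hΦ : Φ.Finite) (h : ∀ a ∈ Φ, ∃ i, p a i) : ∃ n, ∀ a ∈ Φ, p a n := by
  classical
  choose! f hf using h
  refine ⟨hΦ.toFinset.sup f, fun a ha => hp a _ _ ?_ (hf a ha)⟩
  exact Finset.le_sup (f := f) (hΦ.mem_toFinset.2 ha)

end Pool.Agent.J6H4.FJC
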