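import Pool.Agent.J6H4.FJC.Asc

/-!
# Summary
-/

set_option autoImplicit false

namespace Pool.Agent.J6H4.FJC

open SimpleGraph
open Pool.Agent.Y110.FJ
open Pool.Agent.N509.TX (AcylF)
open Pool.Agent.N431.CE (Es)

variable {C : ∀ (G : Type) [Group G], Prop}
variable {G V : Type} [Group G] [MulAction G V] {T : SimpleGraph V}

/-- `G_v / N_v` is in `C` and the indices of `E ∩ N_v` in the edge groups `E` at `v` are finite -/
def TopA (C : ∀ (G : Type) [Group G], Prop) {G V : Type} [Group G] [MulAction G V]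
    (T : SimpleGraph V) (N : V → Subgroup G) : Prop :=
  (∀ v, Qn C (MulAction.stabilizer G v) (N v)) ∧
    ∀ v u, T.Adj v u → (N v).relIndex (Es G v u) ≠ 0

/-- the quotient of `G` by the group generated by all `N_v` is in `C` -/
def TopB (C : ∀ (G : Type) [Group G], Prop) {G V : Type} [Group G] (N : V → Subgroup G) : Prop :=
  ∃ (P : Type) (_ : Group P) (f : G →* P), C P ∧ ∀ g, f g = 1 ↔ g ∈ ⨆ v, N v

theorem TopA_stab (hC : ClosedE C) : TopA C T (fun v => MulAction.stabilizer G v) := by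
  refine ⟨fun v => ⟨PUnit, inferInstance, 1, C_triv hC, fun x => ⟨fun _ => x.2, fun _ => rfl⟩⟩, ?_⟩
  intro v u _
  have h1 : Es G v u ≤ MulAction.stabilizer G v := inf_le_left
  have h2 := Subgroup.relIndex_eq_one.2 h1
  show (MulAction.stabilizer G v).relIndex (Es G v u) ≠ 0
  rw [h2]
  exact one_ne_zero

theorem fin_desc (hC : ClosedE C) (hsol : ∀ (S : Type) [Group S], Group.IsSolvable S → C S)
    (hA : AcylF C) (hT : T.IsTree)
    (hact : ∀ (g : G) (u v : V), T.Adj u v → T.Adj (g • u) (g • v))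
    (hV : ∀ v : V, C ↥(MulAction.stabilizer G v)) {D : ℕ → V → Subgroup G} (hD : Des T D) :
    (TopA C T (D 0) → (∀ v u : V, T.Adj v u → ∃ j, ∀ x ∈ Es G v u, x ∈ D j v → x = 1) → C G) ∧
    (TopB C (D 0) → ∀ n : ℕ, (∀ v u : V, T.Adj v u → ∀ x ∈ Es G v u, x ∈ D n v → x = 1) →
      C G) := by
  refine ⟨fun h hE => Des.main hC hsol hA hT hact hV hD h.1 h.2 hE, ?_⟩
  rintro ⟨P, _, f, hP, hf⟩ n hE
  exact Des.main' hC hsol hA hT hact hV hD f hP hf n hE

theorem fin_ret (hC : ClosedE C) (hsol : ∀ (S : Type) [Group S], Group.IsSolvable S → C S)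
    (hA : AcylF C) (hT : T.IsTree)
    (hact : ∀ (g : G) (u v : V), T.Adj u v → T.Adj (g • u) (g • v))
    (hV : ∀ v : V, C ↥(MulAction.stabilizer G v)) {N : V → Subgroup G} (hN : CF T N)
    (hR : ∀ v u : V, T.Adj v u → Ret (N v) (Es G v u)) :
    (TopA C T N → (∀ v u : V, T.Adj v u → Group.IsSolvable ↥(N v ⊓ Es G v u)) → C G) ∧
    (TopB C N → ∀ n : ℕ, (∀ v u : V, T.Adj v u → derivedSeries ↥(N v ⊓ Es G v u) n = ⊥) →
      C G) := by
  have h0 : ds N 0 = N := funext fun v => ds_zero N v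
  have h1 := fin_desc hC hsol hA hT hact hV (ds_Des hN hR)
  rw [h0] at h1
  refine ⟨fun h hE => h1.1 h fun v u hvu => ?_, fun h n hE => h1.2 h n fun v u hvu =>
    ds_bot (hR v u hvu) (hE v u hvu)⟩
  obtain ⟨j, hj⟩ := hE v u hvu
  exact ⟨j, ds_bot (hR v u hvu) hj⟩

/-- the edge group is a retract of the vertex group -/
def RetV (G : Type) {V : Type} [Group G] [MulAction G V] (v u : V) : Prop :=
  ∃ ρ : ↥(MulAction.stabilizer G v) →* Es G v u,
    ∀ x : ↥(MulAction.stabilizer G v), (x : G) ∈ Es G v u → (ρ x : G) = x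

theorem fin_retV (hC : ClosedE C) (hsol : ∀ (S : Type) [Group S], Group.IsSolvable S → C S)
    (hA : AcylF C) (hT : T.IsTree)
    (hact : ∀ (g : G) (u v : V), T.Adj u v → T.Adj (g • u) (g • v))
    (hV : ∀ v : V, C ↥(MulAction.stabilizer G v))
    (hR : ∀ v u : V, T.Adj v u → RetV G v u ∧ Group.IsSolvable (Es G v u)) : C G := by
  refine (fin_ret hC hsol hA hT hact hV CF_stab fun v u hvu => ?_).1 (TopA_stab hC) fun v u hvu => ?_
  · obtain ⟨ρ, hρ⟩ := (hR v u hvu).1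
    exact ⟨(Es G v u).subtype.comp ρ, fun x => ⟨(ρ x).2.1, (ρ x).2⟩, hρ⟩
  · have h1 := (hR v u hvu).2
    exact Group.isSolvable_of_isSolvable_injective
      (f := Subgroup.inclusion (inf_le_right : MulAction.stabilizer G v ⊓ Es G v u ≤ Es G v u))
      (Subgroup.inclusion_injective _)

theorem fin_nil (hC : ClosedE C) (hsol : ∀ (S : Type) [Group S], Group.IsSolvable S → C S)
    (hA : AcylF C) (hT : T.IsTree)
    (hact : ∀ (g : G) (u v : V), T.Adj u v → T.Adj (g • u) (g • v))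
    {N : V → Subgroup G} (hN : CF T N) (hnil : ∀ v, Group.IsNilpotent (N v))
    (h : UC T N ∨ (∀ v, Tf (N v)) ∧
      ∀ v u : V, T.Adj v u → ∀ x ∈ N v, ∃ k : ℕ, k ≠ 0 ∧ x ^ k • u = u) :
    (TopA C T N → C G) ∧
    (TopB C N → ∀ n : ℕ, (∀ v, Subgroup.upperCentralSeries (N v) n = ⊤) → C G) := by
  have hc : UC T N := by
    rcases h with h | ⟨h1, h2⟩
    · exact h
    · exact UC_tf hN hnil h1 h2
  refine ⟨fun h => uc_main hC hsol hA hT hact hN hc hnil h.1 h.2, ?_⟩
  rintro ⟨P, _, f, hP, hf⟩ n hn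
  exact uc_main' hC hsol hA hT hact hN hc n hn f hP hf

end Pool.Agent.J6H4.FJC
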