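import Pool.Agent.J6H4.FJC.Edg

/-!
# Summary
-/

set_option autoImplicit false

namespace Pool.Agent.J6H4.FJC

open SimpleGraph
open Pool.Agent.Y110.FJ
open Pool.Agent.N509.TX (AcylF)
open Pool.Agent.N431.CE (Es)

variable {C : ∀ (G : Type) [Group G], Prop}
variable {G V : Type} [Group G] [MulAction G V] {T : SimpleGraph V}

theorem PE.of_inj {E' : Type} [Group E'] (h : PE E') : ∀ (E : Type) [Group E] (f : E →* E'),
    Function.Injective f → PE E := by
  induction h with
  | triv E' h =>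
    intro E _ f hf
    exact PE.triv E fun x => hf ((h _).trans (h _).symm)
  | der E' _ ih =>
    intro E _ f hf
    refine PE.der E (ih _ ((f.comp (commutator E).subtype).codRestrict (commutator E') fun y =>
      der_Fct E E' f y y.2) ?_)
    intro x y hxy
    exact Subtype.ext (hf (congrArg Subtype.val hxy))
  | res E' k _ ih =>
    intro E _ f hf
    refine PE.res E k (ih _ ((f.comp (Ik k E).subtype).codRestrict (Ik k E') fun y =>
      Ik_Fct k E E' f y y.2) ?_)
    intro x y hxy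
    exact Subtype.ext (hf (congrArg Subtype.val hxy))

theorem des_HQ (hC : ClosedE C) (hsol : ∀ (S : Type) [Group S], Group.IsSolvable S → C S)
    (hA : AcylF C) (hT : T.IsTree)
    (hact : ∀ (g : G) (u v : V), T.Adj u v → T.Adj (g • u) (g • v))
    (hV : ∀ v : V, C ↥(MulAction.stabilizer G v)) {D : ℕ → V → Subgroup G} (hD : Des T D)
    (hB : TopB C (D 0)) (n : ℕ) : HQ C (⨆ v, D n v) := by
  have hQ : ∀ v : V, Qn C (MulAction.stabilizer G v) (D 0 v) := by
    intro v
    obtain ⟨P, _, f, hP, hf⟩ := hB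
    refine ⟨P, inferInstance, f.comp (Subgroup.subtype _), hP, fun x => ?_⟩
    show f x = 1 ↔ _
    rw [hf]
    exact ⟨fun h => (hD.cf 0).inter hT hact h x.2, fun h => Subgroup.mem_iSup_of_mem v h⟩
  have hs := hD.ser hC hsol hV hQ (Φ := ∅) (n := n) (fun v u h => absurd h (Set.notMem_empty _))
  have h1 : Ser1 C T (n + 1) (asc D n) := by
    refine ⟨hs.cf, hs.bot, hs.mono, hs.quo, ?_, ?_⟩
    · intro i h1 hi v u _
      left
      obtain ⟨i, rfl⟩ : ∃ j, i = j + 1 := ⟨i - 1, by omega⟩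
      have h1 : n - i = n - (i + 1) + 1 := by omega
      have h2 : ⁅asc D n (i + 1 + 1) v, asc D n (i + 1 + 1) v⁆ ⊔ asc D n (i + 1) v ≤
          asc D n (i + 1) v := by
        refine sup_le ?_ le_rfl
        show ⁅D (n - (i + 1)) v, D (n - (i + 1)) v⁆ ≤ D (n - i) v
        rw [h1]
        exact hD.com _ v
      exact inf_le_right.trans h2
    · right
      obtain ⟨P, _, f, hP, hf⟩ := hB
      refine ⟨P, inferInstance, f, hP, ?_⟩
      have h3 : (⨆ v, asc D n (n + 1) v) = ⨆ v, D 0 v := by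
        refine iSup_congr fun v => ?_
        show D (n - n) v = D 0 v
        rw [Nat.sub_self]
      intro g
      rw [h3]
      exact hf g
  have h2 := h1.quotC hC (fun S _ h => hsol S ⟨⟨2, h⟩⟩) hA hT hact
  have h3 : (⨆ v, asc D n 1 v) = ⨆ v, D n v := by
    refine iSup_congr fun v => ?_
    show D (n - 0) v = D n v
    rw [Nat.sub_zero]
  rw [h3] at h2
  exact h2

/-- **compatible descending series** -/
theorem des_final (hC : ClosedE C) (hsol : ∀ (S : Type) [Group S], Group.IsSolvable S → C S)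
    (hA : AcylF C) (hT : T.IsTree)
    (hact : ∀ (g : G) (u v : V), T.Adj u v → T.Adj (g • u) (g • v))
    (hV : ∀ v : V, C ↥(MulAction.stabilizer G v)) {D : ℕ → V → Subgroup G} (hD : Des T D)
    (hB : TopA C T (D 0) ∨ TopB C (D 0))
    (hE : ∀ v u : V, T.Adj v u → ∃ j, ∀ x ∈ Es G v u, x ∈ D j v → x = 1) : C G := by
  have hM : ∀ (G : Type) [Group G], derivedSeries G 2 = ⊥ → C G := fun S _ h => hsol S ⟨⟨2, h⟩⟩
  have hB' : TopB C (D 0) := hB.elim (fun h => h.toB hC hM hA hT hact hV (hD.cf 0)) id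
  refine edge_crit hC hM hA hT hact hV fun v u hvu => ?_
  obtain ⟨j, hj⟩ := hE v u hvu
  obtain ⟨P, _, f, hP, hf⟩ := des_HQ hC hsol hA hT hact hV hD hB' j
  exact ⟨P, inferInstance, f, hP, fun x hx h1 =>
    hj x hx ((hD.cf j).inter hT hact ((hf x).1 h1) hx.1)⟩

/-- **retracts** -/
theorem ret_final (hC : ClosedE C) (hsol : ∀ (S : Type) [Group S], Group.IsSolvable S → C S)
    (hA : AcylF C) (hT : T.IsTree)
    (hact : ∀ (g : G) (u v : V), T.Adj u v → T.Adj (g • u) (g • v))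
    (hV : ∀ v : V, C ↥(MulAction.stabilizer G v)) {N : V → Subgroup G} (hN : CF T N)
    (hB : TopA C T N ∨ TopB C N)
    (hE : ∀ v u : V, T.Adj v u → Ret (N v) (Es G v u) ∧ PE ↥(N v ⊓ Es G v u)) : C G := by
  have hM : ∀ (G : Type) [Group G], derivedSeries G 2 = ⊥ → C G := fun S _ h => hsol S ⟨⟨2, h⟩⟩
  have hB' : TopB C N := hB.elim (fun h => h.toB hC hM hA hT hact hV hN) id
  exact ret_main hC hsol hA hT hact hV hN (fun v u h => (hE v u h).1) hB' fun v u h => (hE v u h).2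

/-- **retracts of the vertex groups** -/
theorem ret_finalV (hC : ClosedE C) (hsol : ∀ (S : Type) [Group S], Group.IsSolvable S → C S)
    (hA : AcylF C) (hT : T.IsTree)
    (hact : ∀ (g : G) (u v : V), T.Adj u v → T.Adj (g • u) (g • v))
    (hV : ∀ v : V, C ↥(MulAction.stabilizer G v))
    (hE : ∀ v u : V, T.Adj v u → RetV G v u ∧ PE (Es G v u)) : C G := by
  refine ret_final hC hsol hA hT hact hV CF_stab (Or.inl (TopA_stab hC)) fun v u hvu => ?_
  obtain ⟨⟨ρ, hρ⟩, h2⟩ := hE v u hvu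
  refine ⟨⟨(Es G v u).subtype.comp ρ, fun x => ⟨(ρ x).2.1, (ρ x).2⟩, hρ⟩, ?_⟩
  exact h2.of_inj _ (Subgroup.inclusion (inf_le_right :
    MulAction.stabilizer G v ⊓ Es G v u ≤ Es G v u)) (Subgroup.inclusion_injective _)

/-- **families of nilpotent groups** -/
theorem nil_final (hC : ClosedE C) (hsol : ∀ (S : Type) [Group S], Group.IsSolvable S → C S)
    (hA : AcylF C) (hT : T.IsTree)
    (hact : ∀ (g : G) (u v : V), T.Adj u v → T.Adj (g • u) (g • v))
    {N : V → Subgroup G} (hN : CF T N) (hnil : ∀ v, Group.IsNilpotent (N v))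
    (h : UC T N ∨ (∀ v, Tf (N v)) ∧
      ∀ v u : V, T.Adj v u → ∀ x ∈ N v, ∃ k : ℕ, k ≠ 0 ∧ x ^ k • u = u)
    (hB : TopA C T N ∨ TopB C N ∧ ∃ n : ℕ, ∀ v, Subgroup.upperCentralSeries (N v) n = ⊤) :
    C G := by
  have h1 := fin_nil hC hsol hA hT hact hN hnil h
  rcases hB with hB | ⟨hB, n, hn⟩
  · exact h1.1 hB
  · exact h1.2 hB n hn

end Pool.Agent.J6H4.FJC
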