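import Pool.Agent.J6H95.FJ.Cyr

/-!
# Reduction to subtrees with finitely many orbits of edges
-/

set_option autoImplicit false

namespace Pool.Agent.J6H4.FJC

open SimpleGraph
open Pool.Agent.Y110.FJ
open Pool.Agent.N509.TK
open Pool.Agent.J6H95.FJ
open Pool.Agent.N431.CE (Es mem_Es)

variable {C : ∀ (G : Type) [Group G], Prop}
variable {G V : Type} [Group G] [MulAction G V] {T : SimpleGraph V}

/-- **reduction to finitely generated subgroups and subtrees with finitely many orbits of edges** -/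
theorem local_red (hC : ClosedE C) (hT : T.IsTree)
    (hact : ∀ (g : G) (u v : V), T.Adj u v → T.Adj (g • u) (g • v))
    (hloc : ∀ (H : Subgroup G) (Φ : Finset (V × V)) (W : Type) [MulAction H W]
      (T' : SimpleGraph W) (ι : W → V), Function.Injective ι →
      (∀ (h : H) (x : W), ι (h • x) = (h : G) • ι x) → T'.IsTree →
      (∀ (h : H) (x y : W), T'.Adj x y → T'.Adj (h • x) (h • y)) →
      (∀ x y, T'.Adj x y → T.Adj (ι x) (ι y)) →
      (∀ x y, T'.Adj x y → ∃ h : G, (h • ι x, h • ι y) ∈ Φ ∨ (h • ι y, h • ι x) ∈ Φ) →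
      (∀ e ∈ Φ, T.Adj e.1 e.2) → C H) : C G := by
  classical
  obtain ⟨o⟩ := hT.connected.nonempty
  refine Pool.Agent.Y430.SS.of_directed hC.base G (Finset G) (fun i j => ?_)
    (fun s => Subgroup.closure (s : Set G))
    (fun s t h => Subgroup.closure_mono (by exact_mod_cast h))
    (fun g => ⟨{g}, Subgroup.subset_closure (by simp)⟩) (fun S => ?_)
  · exact ⟨i ∪ j, Finset.subset_union_left, Finset.subset_union_right⟩
  obtain ⟨H, hH⟩ : ∃ H : Subgroup G, H = Subgroup.closure (S : Set G) := ⟨_, rfl⟩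
  show C (Subgroup.closure (S : Set G))
  rw [← hH]
  let w : ∀ g : G, T.Walk o (g • o) := fun g => (hT.connected.preconnected o (g • o)).some
  obtain ⟨Φ, hΦ⟩ : ∃ Φ : Finset (V × V),
      Φ = S.biUnion fun s => ((w s).darts.map fun d => d.toProd).toFinset := ⟨_, rfl⟩
  have hΦT : ∀ e ∈ Φ, T.Adj e.1 e.2 := by
    intro e he
    rw [hΦ, Finset.mem_biUnion] at he
    obtain ⟨s, -, he⟩ := he
    rw [List.mem_toFinset, List.mem_map] at he
    obtain ⟨d, -, rfl⟩ := he
    exact d.adj
  obtain ⟨T', hT'⟩ : ∃ T' : SimpleGraph V, T' = tg T H (Φ : Set (V × V)) := ⟨_, rfl⟩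
  have hle : T' ≤ T := by
    rw [hT']
    intro u v h
    exact h.1
  have hreach : ∀ g ∈ H, T'.Reachable o (g • o) := by
    intro g hg
    rw [hH] at hg
    induction hg using Subgroup.closure_induction with
    | mem s hs =>
      rw [hT']
      refine tg_walk H _ (w s) fun d hd => ?_
      rw [hΦ]
      simp only [Finset.coe_biUnion, Set.mem_iUnion, Finset.mem_coe, List.mem_toFinset, List.mem_map]
      exact ⟨s, hs, d, hd, rfl⟩
    | one =>
      rw [one_smul]
    | mul a b ha hb iha ihb =>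
      rw [mul_smul]
      refine iha.trans ?_
      rw [hT'] at ihb ⊢
      exact tg_reach hact H _ (hH ▸ ha) ihb
    | inv a ha iha =>
      have h1 : T'.Reachable (a⁻¹ • o) (a⁻¹ • a • o) := by
        rw [hT'] at iha ⊢
        exact tg_reach hact H _ (H.inv_mem (hH ▸ ha)) iha
      rw [inv_smul_smul] at h1
      exact h1.symm
  have hTs : ∀ a ∈ H, ∀ x y : V, T'.Adj x y → T'.Adj (a • x) (a • y) := by
    intro a ha x y h
    rw [hT'] at h ⊢
    exact tg_smul hact H _ ha h
  have hTa : ∀ x y : V, T'.Adj x y → ∃ h ∈ H, (h • x, h • y) ∈ Φ ∨ (h • y, h • x) ∈ Φ := by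
    intro x y h
    rw [hT'] at h
    exact h.2
  obtain ⟨c, hc⟩ : ∃ c : T'.ConnectedComponent, c = T'.connectedComponentMk o := ⟨_, rfl⟩
  have hcm : ∀ x, x ∈ c.supp ↔ T'.Reachable o x := by
    intro x
    rw [hc, ConnectedComponent.mem_supp_iff, ConnectedComponent.eq]
    exact ⟨fun h => h.symm, fun h => h.symm⟩
  have hcs : ∀ (h : H) (x : V), x ∈ c.supp → (h : G) • x ∈ c.supp := by
    intro h x hx
    rw [hcm] at hx ⊢
    refine (hreach h h.2).trans ?_
    rw [hT'] at hx ⊢
    exact tg_reach hact H _ h.2 hx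
  let _ : MulAction H c.supp :=
    { smul := fun h x => ⟨(h : G) • (x : V), hcs h x x.2⟩
      one_smul := fun x => Subtype.ext (one_smul G (x : V))
      mul_smul := fun h k x => Subtype.ext (mul_smul (h : G) (k : G) (x : V)) }
  refine hloc H Φ c.supp c.toSimpleGraph Subtype.val Subtype.val_injective (fun _ _ => rfl)
    ((hT.isAcyclic.anti hle).isTree_connectedComponent c) ?_ (fun x y h => hle h) ?_ hΦT
  · intro h x y hxy
    have h1 : T'.Adj (x : V) (y : V) := hxy
    exact hTs h h.2 _ _ h1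
  · intro x y hxy
    obtain ⟨h, _, h2⟩ := hTa _ _ (show T'.Adj (x : V) (y : V) from hxy)
    exact ⟨h, h2⟩

end Pool.Agent.J6H4.FJC
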