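import Pool.Agent.J6H4.FJC.Ser

/-!
# Groups acting on trees with a compatible series
-/

set_option autoImplicit false

namespace Pool.Agent.J6H4.FJC

open SimpleGraph
open Pool.Agent.Y110.FJ
open Pool.Agent.N509.TK
open Pool.Agent.N509.TX (AcylF)
open Pool.Agent.N431.CE (Es mem_Es)

variable {C : ∀ (G : Type) [Group G], Prop}

theorem finite_of_relIndex {G : Type} [Group G] {K L : Subgroup G} (hK : K = ⊥)
    (h : K.relIndex L ≠ 0) : Finite L := by
  rw [hK, Subgroup.relIndex_bot_left] at h
  exact Nat.finite_of_card_ne_zero h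

/-- **groups acting on trees with a compatible series** -/
theorem Ser.main (hC : ClosedE C) (hD : ∀ (G : Type) [Group G], derivedSeries G 2 = ⊥ → C G)
    (hA : AcylF C) (n : ℕ) : ∀ {G V : Type} [Group G] [MulAction G V] {T : SimpleGraph V}
    {M : ℕ → V → Subgroup G}, T.IsTree →
    (∀ (g : G) (u v : V), T.Adj u v → T.Adj (g • u) (g • v)) → Ser C T n M → C G := by
  induction n with
  | zero =>
    intro G V _ _ T M hT hact hM
    rcases hM.top with htop | ⟨P, _, f, hP, hf⟩
    · refine fin_edges hC hD hA hT hact (fun v => ?_) fun v u h => ?_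
      · obtain ⟨P, _, f, hP, hf⟩ := hM.quo 0 le_rfl v
        refine hC.base.of_injective _ _ f ?_ hP
        refine (injective_iff_map_eq_one f).2 fun x hx => ?_
        have h1 := (hf x).1 hx
        rw [hM.bot, Subgroup.mem_bot] at h1
        exact Subtype.ext h1
      · exact finite_of_relIndex (hM.bot v) (htop v u h)
    · refine hC.base.of_injective _ _ f ?_ hP
      refine (injective_iff_map_eq_one f).2 fun x hx => ?_
      have h1 := (hf x).1 hx
      rwa [iSup_congr hM.bot, iSup_bot, Subgroup.mem_bot] at h1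
  | succ n ih =>
    intro G V _ _ T M hT hact hM
    obtain ⟨S, hS⟩ := Tv.exists (R := M 1) hT
    have hcf : CF T (M 1) := hM.cf 1 (by omega)
    have hq : Tq T (⨆ v, M 1 v) S := hcf.tq hT hact hS
    have hn : (⨆ v, M 1 v).Normal := hcf.normal
    have hQ : C (G ⧸ ⨆ v, M 1 v) := by
      let _ := qa hq
      refine ih (T := T.induce S) (V := S) (hq.isTree hT) ?_ (hM.toSer1.quot hT hact hS hq)
      intro q s t hst
      obtain ⟨g, rfl⟩ := QuotientGroup.mk_surjective q
      exact sm_adj hact hq g s t hst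
    refine step hC hD hA hT hact (fun v => ?_) hcf (QuotientGroup.mk' (⨆ v, M 1 v)) hQ
      (fun g => QuotientGroup.eq_one_iff g) ?_
    · obtain ⟨P, _, f, hP, hf⟩ := hM.quo 0 (by omega) v
      refine hC.base.of_injective _ _ f ?_ hP
      refine (injective_iff_map_eq_one f).2 fun x hx => ?_
      have h1 := (hf x).1 hx
      rw [hM.bot, Subgroup.mem_bot] at h1
      exact Subtype.ext h1
    · intro v u hvu hinf x hx hx2
      rcases hM.com 0 (by omega) v u hvu with h | h
      · have h1 := h ⟨hx, Subgroup.mem_sup_left hx2⟩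
        rw [hM.bot, Subgroup.mem_bot] at h1
        exact h1
      · exact absurd (finite_of_relIndex (hM.bot v) h) (not_finite_iff_infinite.2 hinf)

/-- the quotient by the first family of a series -/
theorem Ser1.quotC (hC : ClosedE C) (hD : ∀ (G : Type) [Group G], derivedSeries G 2 = ⊥ → C G)
    (hA : AcylF C) {n : ℕ} {G V : Type} [Group G] [MulAction G V] {T : SimpleGraph V}
    {M : ℕ → V → Subgroup G} (hT : T.IsTree)
    (hact : ∀ (g : G) (u v : V), T.Adj u v → T.Adj (g • u) (g • v)) (hM : Ser1 C T (n + 1) M) :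
    ∃ (P : Type) (_ : Group P) (f : G →* P), C P ∧ ∀ g, f g = 1 ↔ g ∈ ⨆ v, M 1 v := by
  obtain ⟨S, hS⟩ := Tv.exists (R := M 1) hT
  have hcf : CF T (M 1) := hM.cf 1 (by omega)
  have hq : Tq T (⨆ v, M 1 v) S := hcf.tq hT hact hS
  have hn : (⨆ v, M 1 v).Normal := hcf.normal
  refine ⟨G ⧸ ⨆ v, M 1 v, inferInstance, QuotientGroup.mk' _, ?_, fun g =>
    QuotientGroup.eq_one_iff g⟩
  let _ := qa hq
  refine Ser.main hC hD hA n (T := T.induce S) (V := S) (hq.isTree hT) ?_
    (hM.quot hT hact hS hq)
  intro q s t hst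
  obtain ⟨g, rfl⟩ := QuotientGroup.mk_surjective q
  exact sm_adj hact hq g s t hst

end Pool.Agent.J6H4.FJC
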