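import Pool.Agent.J6H4.FJC.Loc
import Pool.Agent.J6H4.FJC.Main

/-!
# Local form of the theorem on compatible series
-/

set_option autoImplicit false

namespace Pool.Agent.J6H4.FJC

open SimpleGraph
open Pool.Agent.Y110.FJ
open Pool.Agent.N509.TK
open Pool.Agent.N509.TX (AcylF)
open Pool.Agent.N431.CE (Es mem_Es Es_comm)

variable {C : ∀ (G : Type) [Group G], Prop}
variable {G V : Type} [Group G] [MulAction G V] {T : SimpleGraph V}

/-- conjugation -/
def cg (g : G) : G →* G := (MulAut.conj g).toMonoidHom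

theorem cg_apply (g x : G) : cg g x = g * x * g⁻¹ := rfl

theorem cg_inj (g : G) : Function.Injective (cg g) := (MulAut.conj g).injective

theorem CF.map_cg {M : V → Subgroup G} (hM : CF T M) (g : G) (v : V) :
    (M v).map (cg g) = M (g • v) := by
  ext x
  constructor
  · rintro ⟨y, hy, rfl⟩
    exact hM.eqv g v y hy
  · intro hx
    refine ⟨g⁻¹ * x * g, ?_, ?_⟩
    · have h1 := hM.eqv g⁻¹ _ x hx
      rwa [inv_smul_smul, inv_inv] at h1
    · rw [cg_apply]
      group

theorem Es_map (g : G) (v u : V) : (Es G v u).map (cg g) = Es G (g • v) (g • u) := by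
  ext x
  constructor
  · rintro ⟨y, ⟨h1, h2⟩, rfl⟩
    have h1 : y • v = v := h1
    have h2 : y • u = u := h2
    constructor
    · show (g * y * g⁻¹) • g • v = g • v
      rw [mul_smul, mul_smul, inv_smul_smul, h1]
    · show (g * y * g⁻¹) • g • u = g • u
      rw [mul_smul, mul_smul, inv_smul_smul, h2]
  · rintro ⟨h1, h2⟩
    have h1 : x • g • v = g • v := h1
    have h2 : x • g • u = g • u := h2
    refine ⟨g⁻¹ * x * g, ⟨?_, ?_⟩, ?_⟩
    · show (g⁻¹ * x * g) • v = v
      rw [mul_smul, mul_smul, h1, inv_smul_smul]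
    · show (g⁻¹ * x * g) • u = u
      rw [mul_smul, mul_smul, h2, inv_smul_smul]
    · rw [cg_apply]
      group

/-- the condition at the edge `(v, u)` for two steps `K ≤ L` of the series -/
def Cm (G : Type) {V : Type} [Group G] [MulAction G V] (K L : V → Subgroup G) (v u : V) : Prop :=
  Es G v u ⊓ (⁅L v, L v⁆ ⊔ K v) ≤ K v ∨ (K v).relIndex (Es G v u) ≠ 0

theorem top_smul {K : V → Subgroup G} (hK : CF T K) (g : G) {v u : V}
    (h : (K v).relIndex (Es G v u) ≠ 0) : (K (g • v)).relIndex (Es G (g • v) (g • u)) ≠ 0 := by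
  rw [← hK.map_cg, ← Es_map]
  exact relIndex_map _ h

theorem Cm_smul {K L : V → Subgroup G} (hK : CF T K) (hL : CF T L) (g : G) {v u : V}
    (h : Cm G K L v u) : Cm G K L (g • v) (g • u) := by
  rcases h with h | h
  · left
    rw [← hK.map_cg, ← hL.map_cg, ← Es_map, ← Subgroup.map_commutator, ← Subgroup.map_sup,
      ← Subgroup.map_inf _ _ _ (cg_inj g)]
    exact Subgroup.map_mono h
  · right
    exact top_smul hK g h

/-- a compatible series of length `n`, with conditions at the edges in `Φ` -/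
structure SerV (C : ∀ (G : Type) [Group G], Prop) {G V : Type} [Group G] [MulAction G V]
    (T : SimpleGraph V) (Φ : Set (V × V)) (n : ℕ) (M : ℕ → V → Subgroup G) : Prop where
  cf : ∀ i, i ≤ n → CF T (M i)
  bot : ∀ v, M 0 v = ⊥
  mono : ∀ i, i < n → ∀ v, M i v ≤ M (i + 1) v
  quo : ∀ i, i ≤ n → ∀ v, Qn C (MulAction.stabilizer G v) (M i v)
  com : ∀ i, i < n → ∀ v u, (v, u) ∈ Φ → Cm G (M i) (M (i + 1)) v u

section pull

variable {H : Subgroup G} {W : Type} [MulAction H W] {T' : SimpleGraph W} {ι : W → V}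

theorem CF.pull (hι : Function.Injective ι) (he : ∀ (h : H) (x : W), ι (h • x) = (h : G) • ι x)
    (ha : ∀ x y, T'.Adj x y → T.Adj (ι x) (ι y)) {M : V → Subgroup G} (hM : CF T M) :
    CF T' (fun w => (M (ι w)).comap H.subtype) := by
  constructor
  · intro w m hm
    refine hι ?_
    rw [he]
    exact hM.fix _ _ hm
  · intro h w m hm
    show ((h * m * h⁻¹ : H) : G) ∈ M (ι (h • w))
    rw [he]
    exact hM.eqv _ _ _ hm
  · intro u v huv m hm hmu
    refine hM.cmp (ι u) (ι v) (ha u v huv) _ hm ?_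
    show (m : G) • ι u = ι u
    rw [← he, hmu]

theorem Es_pull (hι : Function.Injective ι) (he : ∀ (h : H) (x : W), ι (h • x) = (h : G) • ι x)
    (v u : W) : Es H v u = (Es G (ι v) (ι u)).comap H.subtype := by
  ext x
  constructor
  · rintro ⟨h1, h2⟩
    have h1 : x • v = v := h1
    have h2 : x • u = u := h2
    constructor
    · show (x : G) • ι v = ι v
      rw [← he, h1]
    · show (x : G) • ι u = ι u
      rw [← he, h2]
  · rintro ⟨h1, h2⟩
    have h1 : (x : G) • ι v = ι v := h1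
    have h2 : (x : G) • ι u = ι u := h2
    constructor
    · show x • v = v
      exact hι (by rw [he, h1])
    · show x • u = u
      exact hι (by rw [he, h2])

theorem relIndex_pull {K L : Subgroup G} (H : Subgroup G) (h : K.relIndex L ≠ 0) :
    (K.comap H.subtype).relIndex (L.comap H.subtype) ≠ 0 := by
  rw [Subgroup.relIndex_comap]
  intro h2
  exact h (Subgroup.relIndex_eq_zero_of_le_right (Subgroup.map_comap_le _ _) h2)

theorem Cm.pull (hι : Function.Injective ι) (he : ∀ (h : H) (x : W), ι (h • x) = (h : G) • ι x)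
    {K L : V → Subgroup G} {v u : W} (h : Cm G K L (ι v) (ι u)) :
    Cm H (fun w => (K (ι w)).comap H.subtype) (fun w => (L (ι w)).comap H.subtype) v u := by
  rcases h with h | h
  · left
    rw [Es_pull hι he]
    rintro x ⟨hx1, hx2⟩
    refine h ⟨hx1, ?_⟩
    have h1 : (⁅(L (ι v)).comap H.subtype, (L (ι v)).comap H.subtype⁆ ⊔
        (K (ι v)).comap H.subtype).map H.subtype ≤ ⁅L (ι v), L (ι v)⁆ ⊔ K (ι v) := by
      rw [Subgroup.map_sup, Subgroup.map_commutator]
      exact sup_le_sup (Subgroup.commutator_mono (Subgroup.map_comap_le _ _)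
        (Subgroup.map_comap_le _ _)) (Subgroup.map_comap_le _ _)
    exact h1 ⟨x, hx2, rfl⟩
  · right
    rw [Es_pull hι he]
    exact relIndex_pull H h

theorem Qn.pull (he : ∀ (h : H) (x : W), ι (h • x) = (h : G) • ι x)
    {K : Subgroup G} {w : W} (h : Qn C (MulAction.stabilizer G (ι w)) K) :
    Qn C (MulAction.stabilizer H w) (K.comap H.subtype) := by
  obtain ⟨P, _, f, hP, hf⟩ := h
  refine ⟨P, inferInstance, f.comp ((H.subtype.comp (Subgroup.subtype
      (MulAction.stabilizer H w))).codRestrict (MulAction.stabilizer G (ι w)) ?_), hP, ?_⟩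
  · rintro ⟨z, hz⟩
    have hz : z • w = w := hz
    show (z : G) • ι w = ι w
    rw [← he, hz]
  · intro x
    exact hf _

end pull

/-- **the local form** -/
theorem main_loc (hC : ClosedE C) (hD : ∀ (G : Type) [Group G], derivedSeries G 2 = ⊥ → C G)
    (hA : AcylF C) (hT : T.IsTree)
    (hact : ∀ (g : G) (u v : V), T.Adj u v → T.Adj (g • u) (g • v))
    (h : ∀ Φ : Set (V × V), Φ.Finite → (∀ e ∈ Φ, T.Adj e.1 e.2) →
      ∃ (n : ℕ) (M : ℕ → V → Subgroup G), SerV C T Φ n M ∧
        ∀ v u, (v, u) ∈ Φ → (M n v).relIndex (Es G v u) ≠ 0) : C G := by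
  classical
  refine local_red hC hT hact ?_
  intro H Φ W _ T' ι hι he hT' hact' ha hΦ hΦT
  obtain ⟨Ψ, hΨ⟩ : ∃ Ψ : Set (V × V), Ψ = (Φ : Set (V × V)) ∪ Prod.swap '' (Φ : Set (V × V)) :=
    ⟨_, rfl⟩
  obtain ⟨n, M, hM, htop⟩ := h Ψ (by
    rw [hΨ]
    exact (Finset.finite_toSet Φ).union ((Finset.finite_toSet Φ).image _)) (by
    rw [hΨ]
    rintro e (he | ⟨e, he, rfl⟩)
    · exact hΦT e he
    · exact (hΦT e he).symm)
  have hΨ2 : ∀ x y, T'.Adj x y → ∃ h : G, (h • ι x, h • ι y) ∈ Ψ := by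
    intro x y hxy
    obtain ⟨h, h1⟩ := hΦ x y hxy
    refine ⟨h, ?_⟩
    rw [hΨ]
    rcases h1 with h1 | h1
    · exact Or.inl h1
    · exact Or.inr ⟨_, h1, rfl⟩
  have hcom : ∀ i, i < n → ∀ v u, T'.Adj v u →
      Cm H (fun w => (M i (ι w)).comap H.subtype) (fun w => (M (i + 1) (ι w)).comap H.subtype) v u := by
    intro i hi v u hvu
    obtain ⟨g, hg⟩ := hΨ2 v u hvu
    have h1 := Cm_smul (hM.cf i (by omega)) (hM.cf (i + 1) (by omega)) g⁻¹
      (hM.com i hi _ _ hg)
    rw [inv_smul_smul, inv_smul_smul] at h1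
    exact h1.pull hι he
  refine Ser.main hC hD hA n hT' hact' (M := fun i w => (M i (ι w)).comap H.subtype)
    ⟨⟨?_, ?_, ?_, ?_, fun i _ hi => hcom i hi, ?_⟩, hcom⟩
  · exact fun i hi => (hM.cf i hi).pull hι he ha
  · intro w
    show (M 0 (ι w)).comap H.subtype = ⊥
    rw [hM.bot, MonoidHom.comap_bot, Subgroup.ker_subtype]
  · exact fun i hi w => Subgroup.comap_mono (hM.mono i hi _)
  · exact fun i hi w => (hM.quo i hi (ι w)).pull he
  · left
    intro v u hvu
    obtain ⟨g, hg⟩ := hΨ2 v u hvu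
    have h1 := top_smul (hM.cf n le_rfl) g⁻¹ (htop _ _ hg)
    rw [inv_smul_smul, inv_smul_smul] at h1
    rw [Es_pull hι he]
    exact relIndex_pull H h1

/-- **the global form** -/
theorem main_glob (hC : ClosedE C) (hD : ∀ (G : Type) [Group G], derivedSeries G 2 = ⊥ → C G)
    (hA : AcylF C) (hT : T.IsTree)
    (hact : ∀ (g : G) (u v : V), T.Adj u v → T.Adj (g • u) (g • v)) {n : ℕ}
    {M : ℕ → V → Subgroup G} (h : SerV C T {e : V × V | T.Adj e.1 e.2} n M)
    {P : Type} [Group P] (f : G →* P) (hP : C P) (hf : ∀ g, f g = 1 ↔ g ∈ ⨆ v, M n v) : C G :=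
  Ser.main hC hD hA n hT hact ⟨⟨h.cf, h.bot, h.mono, h.quo,
    fun i _ hi v u hvu => h.com i hi v u hvu, Or.inr ⟨P, inferInstance, f, hP, hf⟩⟩,
    fun i hi v u hvu => h.com i hi v u hvu⟩

end Pool.Agent.J6H4.FJC
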