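import Pool.Agent.J6H4.FJC.Vs

/-!
# Graphs of groups with virtually solvable edge groups which are retracts of the vertex groups
-/

set_option autoImplicit false

namespace Pool.Agent.J6H4.FJC

open SimpleGraph
open Pool.Agent.Y110.FJ
open Pool.Agent.N509.TX (AcylF)
open Pool.Agent.N431.CE (Es)

variable {C : ∀ (G : Type) [Group G], Prop}
variable {G V : Type} [Group G] [MulAction G V] {T : SimpleGraph V}

instance Ik_normal (k : ℕ) (N : Type) [Group N] : (Ik k N).Normal := by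
  refine ⟨fun x hx g => ?_⟩
  rw [mem_Ik] at hx ⊢
  intro f
  rw [map_mul, map_mul, hx f, mul_one, ← map_mul, mul_inv_cancel, map_one]

/-- the derived series of `Ik` -/
def Dk (k j : ℕ) (N : Type) [Group N] : Subgroup N :=
  (derivedSeries (Ik k N) j).map (Ik k N).subtype

/-- the derived series modulo `Ik` -/
def Bk (k j : ℕ) (N : Type) [Group N] : Subgroup N :=
  (derivedSeries (N ⧸ Ik k N) j).comap (QuotientGroup.mk' (Ik k N))

theorem Dk_Fct (k j : ℕ) : Fct (Dk k j) := by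
  rintro N N' _ _ f _ ⟨x, hx, rfl⟩
  refine ⟨(f.comp (Ik k N).subtype).codRestrict (Ik k N') (fun y => Ik_Fct k N N' f y y.2) x, ?_,
    rfl⟩
  exact map_derivedSeries_le_derivedSeries _ j ⟨x, hx, rfl⟩

theorem Bk_Fct (k j : ℕ) : Fct (Bk k j) := by
  intro N N' _ _ f x hx
  have h1 : Ik k N ≤ (Ik k N').comap f := fun y hy => Ik_Fct k N N' f y hy
  exact map_derivedSeries_le_derivedSeries (QuotientGroup.map (Ik k N) (Ik k N') f h1) j
    ⟨_, hx, rfl⟩

theorem Dk_zero (k : ℕ) (N : Type) [Group N] : Dk k 0 N = Ik k N := by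
  ext x
  constructor
  · rintro ⟨y, _, rfl⟩
    exact y.2
  · intro hx
    exact ⟨⟨x, hx⟩, Subgroup.mem_top _, rfl⟩

theorem Dk_anti (k j : ℕ) (N : Type) [Group N] : Dk k (j + 1) N ≤ Dk k j N :=
  Subgroup.map_mono (derivedSeries_antitone _ (Nat.le_succ j))

theorem Dk_com (k j : ℕ) (N : Type) [Group N] : ⁅Dk k j N, Dk k j N⁆ ≤ Dk k (j + 1) N := by
  show ⁅(derivedSeries (Ik k N) j).map _, (derivedSeries (Ik k N) j).map _⁆ ≤ _
  rw [← Subgroup.map_commutator]
  exact Subgroup.map_mono le_rfl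

theorem Bk_zero (k : ℕ) (N : Type) [Group N] : Bk k 0 N = ⊤ := by
  show (⊤ : Subgroup (N ⧸ Ik k N)).comap _ = ⊤
  exact Subgroup.comap_top _

theorem Bk_anti (k j : ℕ) (N : Type) [Group N] : Bk k (j + 1) N ≤ Bk k j N :=
  Subgroup.comap_mono (derivedSeries_antitone _ (Nat.le_succ j))

theorem Bk_com (k j : ℕ) (N : Type) [Group N] : ⁅Bk k j N, Bk k j N⁆ ≤ Bk k (j + 1) N := by
  show _ ≤ (derivedSeries (N ⧸ Ik k N) (j + 1)).comap _
  rw [← Subgroup.map_le_iff_le_comap, Subgroup.map_commutator]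
  exact Subgroup.commutator_mono (Subgroup.map_comap_le _ _) (Subgroup.map_comap_le _ _)

theorem Ik_le_Bk (k j : ℕ) (N : Type) [Group N] : Ik k N ≤ Bk k j N := by
  intro x hx
  show (QuotientGroup.mk x : N ⧸ Ik k N) ∈ derivedSeries (N ⧸ Ik k N) j
  rw [(QuotientGroup.eq_one_iff x).2 hx]
  exact one_mem _

theorem Bk_le {k j : ℕ} {N : Type} [Group N] (h : derivedSeries N j = ⊥) : Bk k j N ≤ Ik k N := by
  intro x hx
  have h1 : (QuotientGroup.mk x : N ⧸ Ik k N) ∈ derivedSeries (N ⧸ Ik k N) j := hx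
  rw [← map_derivedSeries_eq (QuotientGroup.mk'_surjective (Ik k N)), h, Subgroup.map_bot,
    Subgroup.mem_bot] at h1
  exact (QuotientGroup.eq_one_iff x).1 h1

/-- the chain of functorial subgroups -/
def Fc (k n i : ℕ) (N : Type) [Group N] : Subgroup N :=
  if i = 0 then ⊥ else if i ≤ n + 1 then Dk k (n + 1 - i) N else Bk k (2 * n + 2 - i) N

theorem Fc_zero (k n : ℕ) (N : Type) [Group N] : Fc k n 0 N = ⊥ := by simp [Fc]

theorem Fc_low {k n i : ℕ} (h1 : i ≠ 0) (h2 : i ≤ n + 1) (N : Type) [Group N] :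
    Fc k n i N = Dk k (n + 1 - i) N := by simp [Fc, h1, h2]

theorem Fc_high {k n i : ℕ} (h2 : ¬ i ≤ n + 1) (N : Type) [Group N] :
    Fc k n i N = Bk k (2 * n + 2 - i) N := by
  have h1 : i ≠ 0 := by omega
  simp [Fc, h1, h2]

theorem Fc_Fct (k n i : ℕ) : Fct (Fc k n i) := by
  intro N N' _ _ f x hx
  by_cases h1 : i = 0
  · subst h1
    rw [Fc_zero, Subgroup.mem_bot] at hx ⊢
    rw [hx, map_one]
  by_cases h2 : i ≤ n + 1
  · rw [Fc_low h1 h2] at hx ⊢
    exact Dk_Fct _ _ N N' f x hx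
  · rw [Fc_high h2] at hx ⊢
    exact Bk_Fct _ _ N N' f x hx

theorem Fc_mono {k n i : ℕ} (N : Type) [Group N] (hi : i < 2 * n + 2) :
    Fc k n i N ≤ Fc k n (i + 1) N := by
  by_cases h1 : i = 0
  · subst h1
    rw [Fc_zero]
    exact bot_le
  by_cases h2 : i + 1 ≤ n + 1
  · rw [Fc_low h1 (by omega), Fc_low (by omega) h2]
    have h3 : n + 1 - i = n + 1 - (i + 1) + 1 := by omega
    rw [h3]
    exact Dk_anti _ _ N
  by_cases h4 : i ≤ n + 1
  · have h5 : i = n + 1 := by omega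
    subst h5
    rw [Fc_low h1 h4, Fc_high h2, Nat.sub_self, Dk_zero]
    exact Ik_le_Bk _ _ N
  · rw [Fc_high h4, Fc_high h2]
    have h3 : 2 * n + 2 - i = 2 * n + 2 - (i + 1) + 1 := by omega
    rw [h3]
    exact Bk_anti _ _ N

theorem Fc_top (k n : ℕ) (N : Type) [Group N] : Fc k n (2 * n + 2) N = ⊤ := by
  by_cases h : 2 * n + 2 ≤ n + 1
  · omega
  · rw [Fc_high h, Nat.sub_self, Bk_zero]

/-- the factors are abelian, except for the factor above `Ik` -/
theorem Fc_com {k n i : ℕ} (N : Type) [Group N] (hi : i < 2 * n + 2)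
    (hn : derivedSeries (Ik k N) n = ⊥) (hi2 : i = n + 1 → derivedSeries N n = ⊥) :
    ⁅Fc k n (i + 1) N, Fc k n (i + 1) N⁆ ≤ Fc k n i N := by
  by_cases h1 : i = 0
  · subst h1
    have h3 : n + 1 - (0 + 1) = n := by omega
    rw [Fc_zero, Fc_low (by omega) (by omega), h3, Dk, hn, Subgroup.map_bot]
    exact Subgroup.commutator_le.2 fun a ha b hb => by
      rw [Subgroup.mem_bot] at ha hb ⊢
      rw [ha, hb, commutatorElement_one_left]
  by_cases h2 : i + 1 ≤ n + 1
  · rw [Fc_low h1 (by omega), Fc_low (by omega) h2]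
    have h3 : n + 1 - i = n + 1 - (i + 1) + 1 := by omega
    rw [h3]
    exact Dk_com _ _ N
  by_cases h4 : i ≤ n + 1
  · have h5 : i = n + 1 := by omega
    subst h5
    have h6 : 2 * n + 2 - (n + 1 + 1) = n := by omega
    rw [Fc_low h1 h4, Fc_high h2, Nat.sub_self, Dk_zero, h6]
    refine (Subgroup.commutator_mono (Bk_le (hi2 rfl)) (Bk_le (hi2 rfl))).trans ?_
    exact Subgroup.commutator_le_left _ _
  · rw [Fc_high h4, Fc_high h2]
    have h3 : 2 * n + 2 - i = 2 * n + 2 - (i + 1) + 1 := by omega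
    rw [h3]
    exact Bk_com _ _ N

omit [MulAction G V] in
theorem derived_le (D : ℕ → Subgroup G) (h : ∀ j, ⁅D j, D j⁆ ≤ D (j + 1)) (j : ℕ) :
    ∀ x ∈ derivedSeries (D 0) j, (x : G) ∈ D j := by
  have key : (derivedSeries (D 0) j).map (D 0).subtype ≤ D j := by
    induction j with
    | zero =>
      rintro _ ⟨x, _, rfl⟩
      exact x.2
    | succ j ih =>
      rw [derivedSeries_succ, Subgroup.map_commutator]
      exact (Subgroup.commutator_mono ih ih).trans (h j)
  exact fun x hx => key ⟨x, hx, rfl⟩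

omit [MulAction G V] in
theorem fam_com {F F' : ∀ (N : Type) [Group N], Subgroup N}
    (h : ∀ (N : Type) [Group N], ⁅F N, F N⁆ ≤ F' N) (N : V → Subgroup G) (v : V) :
    ⁅fam F N v, fam F N v⁆ ≤ fam F' N v := by
  show ⁅(F (N v)).map _, (F (N v)).map _⁆ ≤ _
  rw [← Subgroup.map_commutator]
  exact Subgroup.map_mono (h _)

omit [MulAction G V] in
theorem Ik_relIndex (k : ℕ) {N : V → Subgroup G} {v : V} {A : Subgroup G} (hA : A ≤ N v)
    (hfg : Group.FG A) : (fam (Ik k) N v).relIndex A ≠ 0 := by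
  intro h
  have h1 : Ik k A ≤ (fam (Ik k) N v).subgroupOf A := fun x hx => fam_of (Ik_Fct k) hA hx
  have h2 := Subgroup.index_dvd_of_le h1
  have h3 : ((fam (Ik k) N v).subgroupOf A).index = 0 := h
  rw [h3, zero_dvd_iff] at h2
  exact Ik_index k A hfg h2

theorem Fc_quo (hC : ClosedE C) (hsol : ∀ (S : Type) [Group S], Group.IsSolvable S → C S)
    (hV : ∀ v : V, C ↥(MulAction.stabilizer G v)) {N : V → Subgroup G} (hN : CF T N)
    (hR : ∀ v u : V, T.Adj v u → Ret (N v) (Es G v u))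
    (hQ : ∀ v : V, Qn C (MulAction.stabilizer G v) (N v)) (k n i : ℕ) (v : V) :
    Qn C (MulAction.stabilizer G v) (fam (Fc k n i) N v) := by
  have hnorm : ∀ {F : ∀ (N : Type) [Group N], Subgroup N}, Fct F →
      ((fam F N v).subgroupOf (MulAction.stabilizer G v)).Normal := fun hF =>
    (fam_CF hF hN hR).sub_normal (N := fun v => MulAction.stabilizer G v) v fun m hm => hm
  by_cases h1 : i = 0
  · subst h1
    have h2 : fam (Fc k n 0) N v = ⊥ := by
      show (Fc k n 0 (N v)).map _ = ⊥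
      rw [Fc_zero, Subgroup.map_bot]
    rw [h2]
    exact Qn.bot (hV v)
  by_cases h2 : i ≤ n + 1
  · have h3 : fam (Fc k n i) N v = fam (Dk k (n + 1 - i)) N v := by
      show (Fc k n i (N v)).map _ = (Dk k (n + 1 - i) (N v)).map _
      rw [Fc_low h1 h2]
    rw [h3]
    have h4 : fam (Dk k 0) N v = fam (Ik k) N v := by
      show (Dk k 0 (N v)).map _ = (Ik k (N v)).map _
      rw [Dk_zero]
    have h5 : Qn C (MulAction.stabilizer G v) (fam (Dk k 0) N v) := by
      rw [h4]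
      refine Qn.lf hC (fam_le _ N v) (hnorm (Ik_Fct k)) (fun A hA hfg => ?_) (hQ v)
      exact Ik_relIndex k hA ((Group.fg_iff_subgroup_fg A).2 hfg)
    have hle : fam (Dk k (n + 1 - i)) N v ≤ fam (Dk k 0) N v := by
      rw [h4]
      refine Subgroup.map_mono ?_
      rintro _ ⟨y, _, rfl⟩
      exact y.2
    exact Qn.ext hC hsol hle (hnorm (Dk_Fct _ _)) (n + 1 - i)
      (derived_le (fun j => fam (Dk k j) N v) (fun j => fam_com (fun N _ => Dk_com k j N) N v) _) h5
  · have h3 : fam (Fc k n i) N v = fam (Bk k (2 * n + 2 - i)) N v := by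
      show (Fc k n i (N v)).map _ = (Bk k (2 * n + 2 - i) (N v)).map _
      rw [Fc_high h2]
    rw [h3]
    have h4 : fam (Bk k 0) N v = N v := by
      show (Bk k 0 (N v)).map _ = N v
      rw [Bk_zero]
      ext x
      exact ⟨fun ⟨y, _, hy⟩ => hy ▸ y.2, fun hx => ⟨⟨x, hx⟩, trivial, rfl⟩⟩
    have h5 : Qn C (MulAction.stabilizer G v) (fam (Bk k 0) N v) := by
      rw [h4]
      exact hQ v
    have hle : fam (Bk k (2 * n + 2 - i)) N v ≤ fam (Bk k 0) N v := by
      rw [h4]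
      exact fam_le _ N v
    exact Qn.ext hC hsol hle (hnorm (Bk_Fct _ _)) (2 * n + 2 - i)
      (derived_le (fun j => fam (Bk k j) N v) (fun j => fam_com (fun N _ => Bk_com k j N) N v) _) h5

/-- solvable, or finitely generated and virtually solvable -/
def VSol (N : Type) [Group N] : Prop :=
  Group.IsSolvable N ∨ Group.FG N ∧ ∃ H : Subgroup N, H.index ≠ 0 ∧ Group.IsSolvable H

/-- the condition for the numbers `n` -/
def Pn (N : Type) [Group N] (n : ℕ) : Prop :=
  (derivedSeries N n = ⊥ ∨ Group.FG N) ∧ derivedSeries (Ik n N) n = ⊥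

theorem ds_sub {N N' : Type} [Group N] [Group N'] (f : N →* N') (hf : Function.Injective f)
    {n m : ℕ} (hnm : n ≤ m) (h : derivedSeries N' n = ⊥) : derivedSeries N m = ⊥ := by
  rw [eq_bot_iff]
  intro x hx
  have h1 := map_derivedSeries_le_derivedSeries f m ⟨x, hx, rfl⟩
  have h2 := derivedSeries_antitone N' hnm h1
  rw [h, Subgroup.mem_bot] at h2
  exact (hf (h2.trans (map_one f).symm) : x = 1)

theorem Pn_mono (N : Type) [Group N] {n m : ℕ} (hnm : n ≤ m) (h : Pn N n) : Pn N m := by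
  refine ⟨?_, ?_⟩
  · rcases h.1 with h1 | h1
    · exact Or.inl (ds_sub (MonoidHom.id N) Function.injective_id hnm h1)
    · exact Or.inr h1
  · exact ds_sub (Subgroup.inclusion (Ik_anti hnm N)) (Subgroup.inclusion_injective _) hnm h.2

theorem VSol.exists {N : Type} [Group N] (h : VSol N) : ∃ n, Pn N n := by
  rcases h with ⟨n, hn⟩ | ⟨hfg, H, hH, ⟨n, hn⟩⟩
  · exact ⟨n, Or.inl hn, ds_sub (Ik n N).subtype (Subgroup.subtype_injective _) le_rfl hn⟩
  · refine ⟨max H.index n, Or.inr hfg, ?_⟩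
    exact ds_sub (Subgroup.inclusion ((Ik_anti (le_max_left _ _) N).trans (Ik_le H hH)))
      (Subgroup.inclusion_injective _) (le_max_right _ _) hn

/-- **virtually solvable retracts** -/
theorem vs_main (hC : ClosedE C) (hsol : ∀ (S : Type) [Group S], Group.IsSolvable S → C S)
    (hA : AcylF C) (hT : T.IsTree)
    (hact : ∀ (g : G) (u v : V), T.Adj u v → T.Adj (g • u) (g • v))
    (hV : ∀ v : V, C ↥(MulAction.stabilizer G v)) {N : V → Subgroup G} (hN : CF T N)
    (hR : ∀ v u : V, T.Adj v u → Ret (N v) (Es G v u)) (hTop : TopA C T N)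
    (hE : ∀ v u : V, T.Adj v u → VSol ↥(N v ⊓ Es G v u)) : C G := by
  refine main_loc hC (fun S _ h => hsol S ⟨⟨2, h⟩⟩) hA hT hact fun Φ hΦ hΦT => ?_
  obtain ⟨n, hn⟩ := exists_bound (fun (e : V × V) j => Pn ↥(N e.1 ⊓ Es G e.1 e.2) j)
    (fun e i j hij h => Pn_mono _ hij h) hΦ (fun e he => (hE e.1 e.2 (hΦT e he)).exists)
  refine ⟨2 * n + 2, fun i => fam (Fc n n i) N, ret_ser hN hR (fun i => Fc_Fct n n i)
    (fun N _ => Fc_zero n n N) (fun i hi N _ => Fc_mono N hi)
    (fun i _ v => Fc_quo hC hsol hV hN hR hTop.1 n n i v) hΦT ?_, ?_⟩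
  · intro i hi v u hvu
    obtain ⟨h1, h2⟩ := hn (v, u) hvu
    by_cases h3 : i = n + 1
    swap
    · exact Or.inl (Fc_com _ hi h2 fun h => absurd h h3)
    rcases h1 with h1 | h1
    · exact Or.inl (Fc_com _ hi h2 fun _ => h1)
    · right
      have h4 : fam (Fc n n i) N v = fam (Ik n) N v := by
        show (Fc n n i (N v)).map _ = (Ik n (N v)).map _
        rw [h3, Fc_low (by omega) le_rfl, Nat.sub_self, Dk_zero]
      rw [h4]
      refine Subgroup.relIndex_ne_zero_trans (K := N v ⊓ Es G v u)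
        (Ik_relIndex n inf_le_left h1) ?_
      rw [Subgroup.inf_relIndex_right]
      exact hTop.2 v u (hΦT _ hvu)
  · intro v u hvu
    have h4 : fam (Fc n n (2 * n + 2)) N v = N v := by
      show (Fc n n (2 * n + 2) (N v)).map _ = N v
      rw [Fc_top]
      ext x
      exact ⟨fun ⟨y, _, hy⟩ => hy ▸ y.2, fun hx => ⟨⟨x, hx⟩, trivial, rfl⟩⟩
    show (fam (Fc n n (2 * n + 2)) N v).relIndex (Es G v u) ≠ 0
    rw [h4]
    exact hTop.2 v u (hΦT _ hvu)

theorem VSol.of_inj {N N' : Type} [Group N] [Group N'] (e : N ≃* N') (h : VSol N') : VSol N := by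
  rcases h with h | ⟨hfg, H, hH, hs⟩
  · exact Or.inl (Group.isSolvable_of_isSolvable_injective (f := e.toMonoidHom) e.injective)
  · refine Or.inr ⟨Group.fg_of_surjective (f := e.symm.toMonoidHom) e.symm.surjective,
      H.comap e.toMonoidHom, ?_, ?_⟩
    · rwa [Subgroup.index_comap_of_surjective _ e.surjective]
    · refine Group.isSolvable_of_isSolvable_injective
        (f := (e.toMonoidHom.comp (H.comap e.toMonoidHom).subtype).codRestrict H fun x => x.2) ?_
      intro x y hxy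
      have h1 : e x = e y := congrArg Subtype.val hxy
      exact Subtype.ext (e.injective h1)

/-- **graphs of groups with virtually solvable edge groups which are retracts** -/
theorem vs_mainV (hC : ClosedE C) (hsol : ∀ (S : Type) [Group S], Group.IsSolvable S → C S)
    (hA : AcylF C) (hT : T.IsTree)
    (hact : ∀ (g : G) (u v : V), T.Adj u v → T.Adj (g • u) (g • v))
    (hV : ∀ v : V, C ↥(MulAction.stabilizer G v))
    (hR : ∀ v u : V, T.Adj v u → RetV G v u ∧ VSol (Es G v u)) : C G := by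
  refine vs_main hC hsol hA hT hact hV CF_stab (fun v u hvu => ?_) (TopA_stab hC) fun v u hvu => ?_
  · obtain ⟨ρ, hρ⟩ := (hR v u hvu).1
    exact ⟨(Es G v u).subtype.comp ρ, fun x => ⟨(ρ x).2.1, (ρ x).2⟩, hρ⟩
  · have h1 : MulAction.stabilizer G v ⊓ Es G v u = Es G v u := inf_eq_right.2 inf_le_left
    exact VSol.of_inj (MulEquiv.subgroupCongr h1) (hR v u hvu).2

end Pool.Agent.J6H4.FJC
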