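import Pool.Agent.J6H4.FJC.Uni
import Pool.Agent.J6H4.FJC.Vs2

/-!
# Families with retractions to the edge groups

If the intersections of the edge groups with the members `N v` of a compatible family are retracts of
`N v`, then each `N v` is a retract of the group generated by the family.
-/

set_option autoImplicit false

namespace Pool.Agent.J6H4.FJC

open SimpleGraph
open Pool.Agent.Y110.FJ
open Pool.Agent.N509.TK
open Pool.Agent.N509.TX (AcylF)
open Pool.Agent.N431.CE (Es)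

variable {C : ∀ (G : Type) [Group G], Prop}
variable {G V : Type} [Group G] [MulAction G V] {T : SimpleGraph V}
variable {N : V → Subgroup G} {S : Set V}

/-- retractions to the neighbours -/
theorem exists_R (hN : CF T N) (hR : ∀ v u : V, T.Adj v u → Ret (N v) (Es G v u)) :
    ∃ R : ∀ a b : V, T.Adj a b → (N a →* N b),
      ∀ (a b : V) (h : T.Adj a b) (x : N a), (x : G) ∈ N b → (R a b h x : G) = x := by
  have h1 : ∀ a b : V, ∀ h : T.Adj a b, ∃ R : N a →* N b, ∀ x : N a, (x : G) ∈ N b →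
      (R x : G) = x := by
    intro a b h
    obtain ⟨ρ, h1, h2⟩ := hR a b h
    refine ⟨ρ.codRestrict (N b) fun x => hN.cmp b a h.symm _ (h1 x).1 (h1 x).2.2, fun x hx => ?_⟩
    exact h2 x ⟨hN.fix a _ x.2, hN.fix b _ hx⟩
  choose R hR' using h1
  exact ⟨R, hR'⟩

/-- the composition of the retractions along a walk -/
def rw' (R : ∀ a b : V, T.Adj a b → (N a →* N b)) : ∀ {a o : V}, T.Walk a o → (N a →* N o)
  | _, _, Walk.nil => MonoidHom.id _
  | _, _, Walk.cons h q => (rw' R q).comp (R _ _ h)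

/-- paths from neighbours -/
theorem path_cases (hT : T.IsTree) {a b o : V} (hab : T.Adj a b) (p : T.Walk a o) (q : T.Walk b o)
    (hp : p.IsPath) (hq : q.IsPath) : p = Walk.cons hab q ∨ q = Walk.cons hab.symm p := by
  classical
  have hu : ∀ {x y : V} (p q : T.Walk x y), p.IsPath → q.IsPath → p = q := fun p q hp hq =>
    congrArg Subtype.val (hT.isAcyclic.path_unique ⟨p, hp⟩ ⟨q, hq⟩)
  by_cases h : a ∈ q.support
  · right
    refine hu _ _ hq ((Walk.cons_isPath_iff _ _).2 ⟨hp, fun h2 => ?_⟩)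
    -- `b ∈ p.support` and `a ∈ q.support`
    have h3 : q = Walk.cons hab.symm (q.dropUntil a h) := by
      have h4 : q.takeUntil a h = Walk.cons hab.symm Walk.nil :=
        hu _ _ (hq.takeUntil h) ((Walk.cons_isPath_iff _ _).2 ⟨Walk.IsPath.nil, by
          simpa using hab.ne'⟩)
      have h5 := q.take_spec h
      rw [h4] at h5
      exact h5.symm
    have h4 : q.dropUntil a h = p := hu _ _ (hq.dropUntil h) hp
    rw [h3, Walk.cons_isPath_iff, h4] at hq
    exact hq.2 h2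
  · left
    exact hu _ _ hp ((Walk.cons_isPath_iff _ _).2 ⟨hq, h⟩)

/-- **the members of the family are retracts of the group generated by the family** -/
theorem exists_retr (hT : T.IsTree)
    (hact : ∀ (g : G) (u v : V), T.Adj u v → T.Adj (g • u) (g • v)) (hN : CF T N)
    (hR : ∀ v u : V, T.Adj v u → Ret (N v) (Es G v u)) (hS : Tv T N S) {o : V} (ho : o ∈ S) :
    ∃ r : ↥(⨆ v, N v) →* N o, ∀ m : ↥(⨆ v, N v), (m : G) ∈ N o → (r m : G) = m := by
  obtain ⟨R, hR'⟩ := exists_R hN hR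
  have hpath : ∀ a : V, ∃ p : T.Walk a o, p.IsPath := fun a =>
    (hT.existsUnique_path a o).exists
  choose P hP using hpath
  have hag : Agree T N S (fun v => rw' R (P v)) := by
    intro s hs t ht hst m h1 h2
    show rw' R (P s) ⟨m, h1⟩ = rw' R (P t) ⟨m, h2⟩
    rcases path_cases hT hst (P s) (P t) (hP s) (hP t) with h | h
    · rw [h]
      show rw' R (P t) (R s t hst ⟨m, h1⟩) = _
      congr 1
      exact Subtype.ext (hR' s t hst ⟨m, h1⟩ h2)
    · rw [h]
      show _ = rw' R (P s) (R t s hst.symm ⟨m, h2⟩)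
      congr 1
      exact (Subtype.ext (hR' t s hst.symm ⟨m, h2⟩ h1)).symm
  obtain ⟨r, hr⟩ := exists_ext hT hact hN hS hag
  refine ⟨r, fun m hm => ?_⟩
  rw [hr o ho m hm]
  have h1 : P o = Walk.nil := by
    have h2 := congrArg Subtype.val (hT.isAcyclic.path_unique ⟨P o, hP o⟩ ⟨Walk.nil, Walk.IsPath.nil⟩)
    exact h2
  rw [h1]
  rfl

/-- functorial subgroups of the group generated by the family -/
theorem fct_inter (hT : T.IsTree)
    (hact : ∀ (g : G) (u v : V), T.Adj u v → T.Adj (g • u) (g • v)) (hN : CF T N)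
    (hR : ∀ v u : V, T.Adj v u → Ret (N v) (Es G v u))
    {F : ∀ (N : Type) [Group N], Subgroup N} (hF : Fct F) {v : V} {x : G}
    (hx : x ∈ (F ↥(⨆ v, N v)).map (⨆ v, N v).subtype) (hv : x • v = v) : x ∈ fam F N v := by
  obtain ⟨S, hS⟩ := Tv.exists (R := N) hT
  have key : ∀ s ∈ S, ∀ x ∈ (F ↥(⨆ v, N v)).map (⨆ v, N v).subtype, x • s = s →
      x ∈ fam F N s := by
    rintro s hs _ ⟨y, hy, rfl⟩ hys
    obtain ⟨r, hr⟩ := exists_retr hT hact hN hR hS hs
    have h1 : (y : G) ∈ N s := hN.inter hT hact y.2 hys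
    have h2 := hF _ _ r y hy
    exact ⟨_, h2, hr y h1⟩
  obtain ⟨k, hk, s, hs, rfl⟩ := (hN.tq hT hact hS).cover v
  obtain ⟨y, hy, rfl⟩ := hx
  have hk' : (⟨k, hk⟩ : ↥(⨆ v, N v))⁻¹ * y * ⟨k, hk⟩ ∈ F ↥(⨆ v, N v) := by
    have h1 := hF _ _ (MulAut.conj (⟨k, hk⟩ : ↥(⨆ v, N v))⁻¹).toMonoidHom y hy
    simpa using h1
  have h2 := key s hs _ ⟨_, hk', rfl⟩ (by
    show (k⁻¹ * (y : G) * k) • s = s
    have hv : (y : G) • k • s = k • s := hv
    rw [mul_smul, mul_smul, hv, inv_smul_smul])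
  have h3 := (fam_CF hF hN hR).eqv k s _ h2
  have h4 : k * ((⨆ v, N v).subtype ((⟨k, hk⟩ : ↥(⨆ v, N v))⁻¹ * y * ⟨k, hk⟩)) * k⁻¹ = y := by
    show k * (k⁻¹ * (y : G) * k) * k⁻¹ = y
    group
  rw [h4] at h3
  exact h3

end Pool.Agent.J6H4.FJC
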