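import Pool.Agent.J6H4.FJC.Cmp
import Pool.Agent.J6H95.FJ.Cyr

/-!
# Compatible series
-/

set_option autoImplicit false

namespace Pool.Agent.J6H4.FJC

open SimpleGraph
open Pool.Agent.Y110.FJ
open Pool.Agent.N509.TK
open Pool.Agent.N509.TX (AcylF)
open Pool.Agent.N431.CE (Es mem_Es)

variable {C : ∀ (G : Type) [Group G], Prop}
variable {G V : Type} [Group G] [MulAction G V] {T : SimpleGraph V}

theorem C_triv (hC : ClosedE C) : C PUnit :=
  hC.base.of_injective _ _ (1 : PUnit →* Multiplicative ℤ) (fun _ _ _ => rfl) hC.base.int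

/-- there is a homomorphism from `H` to a group in `C` with kernel `K` -/
def Qn (C : ∀ (G : Type) [Group G], Prop) {G : Type} [Group G] (H K : Subgroup G) : Prop :=
  ∃ (P : Type) (_ : Group P) (f : H →* P), C P ∧ ∀ x : H, f x = 1 ↔ (x : G) ∈ K

/-- the trivial local relation -/
theorem LR_true : LR G T (fun _ _ _ => True) :=
  ⟨fun _ _ _ => trivial, fun _ _ _ _ _ _ => trivial, fun _ _ _ _ _ _ _ _ _ => trivial,
    fun _ _ _ _ _ => trivial⟩

/-- groups acting on trees with finite stabilizers of the edges -/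
theorem fin_edges (hC : ClosedE C) (hM : ∀ (G : Type) [Group G], derivedSeries G 2 = ⊥ → C G)
    (hA : AcylF C) (hT : T.IsTree)
    (hact : ∀ (g : G) (u v : V), T.Adj u v → T.Adj (g • u) (g • v))
    (hV : ∀ v : V, C ↥(MulAction.stabilizer G v))
    (hE : ∀ v u : V, T.Adj v u → Finite (Es G v u)) : C G := by
  refine Pool.Agent.J6H95.FJ.crit hC hM hA hT hact (LR_true (G := G) (T := T)) hV ?_ ?_
  · intro v a h hinf
    exact absurd (hE v a h) (not_finite_iff_infinite.2 hinf)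
  · intro v a h hinf
    exact absurd (hE v a h) (not_finite_iff_infinite.2 hinf)

/-- **extensions by the group generated by a compatible family** -/
theorem step (hC : ClosedE C) (hM : ∀ (G : Type) [Group G], derivedSeries G 2 = ⊥ → C G)
    (hA : AcylF C) (hT : T.IsTree)
    (hact : ∀ (g : G) (u v : V), T.Adj u v → T.Adj (g • u) (g • v))
    (hV : ∀ v : V, C ↥(MulAction.stabilizer G v)) {M : V → Subgroup G} (hF : CF T M)
    {P : Type} [Group P] (f : G →* P) (hP : C P) (hf : ∀ g, f g = 1 ↔ g ∈ ⨆ v, M v)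
    (hE : ∀ v u : V, T.Adj v u → Infinite (Es G v u) → ∀ x ∈ Es G v u, x ∈ ⁅M v, M v⁆ → x = 1) :
    C G := by
  refine Pool.Agent.J6H95.FJ.crit hC hM hA hT hact (LR_true (G := G) (T := T)) hV ?_ ?_
  · intro v a _ _
    exact ⟨0, fun b _ _ h => absurd trivial h⟩
  · intro v u hvu hinf
    refine ⟨MulAction.stabilizer G v, PUnit, inferInstance, 1, P, inferInstance, f, C_triv hC, hP,
      fun g hg _ => hg, fun _ _ _ _ _ _ => rfl, fun x hx hx2 => ?_⟩
    refine hE v u hvu hinf x hx ?_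
    have hle : (1 : ↥(MulAction.stabilizer G v) →* PUnit).ker.map
        (Subgroup.subtype (MulAction.stabilizer G v)) ⊓ f.ker ≤ M v := by
      rintro y ⟨⟨z, _, rfl⟩, h2⟩
      exact hF.inter hT hact ((hf _).1 h2) z.2
    exact Subgroup.commutator_mono hle hle hx2

/-- a compatible series of length `n`, without condition for the first step -/
structure Ser1 (C : ∀ (G : Type) [Group G], Prop) {G V : Type} [Group G] [MulAction G V]
    (T : SimpleGraph V) (n : ℕ) (M : ℕ → V → Subgroup G) : Prop where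
  cf : ∀ i, i ≤ n → CF T (M i)
  bot : ∀ v, M 0 v = ⊥
  mono : ∀ i, i < n → ∀ v, M i v ≤ M (i + 1) v
  quo : ∀ i, i ≤ n → ∀ v, Qn C (MulAction.stabilizer G v) (M i v)
  com1 : ∀ i, 1 ≤ i → i < n → ∀ v u, T.Adj v u →
    Es G v u ⊓ (⁅M (i + 1) v, M (i + 1) v⁆ ⊔ M i v) ≤ M i v ∨ (M i v).relIndex (Es G v u) ≠ 0
  top : (∀ v u, T.Adj v u → (M n v).relIndex (Es G v u) ≠ 0) ∨
    ∃ (P : Type) (_ : Group P) (f : G →* P), C P ∧ ∀ g, f g = 1 ↔ g ∈ ⨆ v, M n v

/-- a compatible series of length `n` -/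
structure Ser (C : ∀ (G : Type) [Group G], Prop) {G V : Type} [Group G] [MulAction G V]
    (T : SimpleGraph V) (n : ℕ) (M : ℕ → V → Subgroup G) : Prop extends Ser1 C T n M where
  com : ∀ i, i < n → ∀ v u, T.Adj v u →
    Es G v u ⊓ (⁅M (i + 1) v, M (i + 1) v⁆ ⊔ M i v) ≤ M i v ∨ (M i v).relIndex (Es G v u) ≠ 0

theorem relIndex_map {G' : Type} [Group G'] (f : G →* G') {K L : Subgroup G}
    (h : K.relIndex L ≠ 0) : (K.map f).relIndex (L.map f) ≠ 0 := by
  obtain ⟨ψ, hψ⟩ : ∃ ψ : L →* L.map f, ψ = f.subgroupMap L := ⟨_, rfl⟩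
  have hs : Function.Surjective ψ := by
    rw [hψ]
    exact f.subgroupMap_surjective L
  have h1 : (((K.map f).subgroupOf (L.map f)).comap ψ).index =
      ((K.map f).subgroupOf (L.map f)).index := Subgroup.index_comap_of_surjective _ hs
  have h2 : K.subgroupOf L ≤ ((K.map f).subgroupOf (L.map f)).comap ψ := by
    intro x hx
    rw [Subgroup.mem_comap, Subgroup.mem_subgroupOf]
    rw [Subgroup.mem_subgroupOf] at hx
    refine ⟨x, hx, ?_⟩
    rw [hψ]
    rfl
  intro h3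
  have h4 := Subgroup.index_dvd_of_le h2
  have h5 : ((K.map f).subgroupOf (L.map f)).index = 0 := h3
  rw [h1, h5, zero_dvd_iff] at h4
  exact h h4

section quot

variable {H : Subgroup G} {S : Set V} (hq : Tq T H S) [H.Normal]

/-- the representative of `g • s` -/
theorem q_smul (g : G) (s : S) : (qh hq (QuotientGroup.mk g)) s = sm hq g s := rfl

include hq in
theorem q_fix {g : G} {s : S} (h : sm hq g s = s) :
    ∃ g' : G, (QuotientGroup.mk g' : G ⧸ H) = QuotientGroup.mk g ∧ g' • (s : V) = s := by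
  obtain ⟨k, hk, h2⟩ := sm_spec hq g s
  rw [h] at h2
  refine ⟨k⁻¹ * g, ?_, by rw [mul_smul, h2, inv_smul_smul]⟩
  have h3 : (QuotientGroup.mk k : G ⧸ H) = 1 := (QuotientGroup.eq_one_iff k).2 hk
  rw [QuotientGroup.mk_mul, QuotientGroup.mk_inv, h3, inv_one, one_mul]

end quot

section ser

variable {M : ℕ → V → Subgroup G} {S : Set V}

/-- an element which fixes `t` and fixes `s` modulo the group generated by the family can be changed by
an element of `M t` into an element which fixes `s` -/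
theorem q_edge {R : V → Subgroup G} (hq : Tq T (⨆ v, R v) S) (hS : Tv T R S) {s t : S}
    (hst : T.Adj (t : V) s)
    (hact : ∀ (g : G) (u v : V), T.Adj u v → T.Adj (g • u) (g • v)) {g : G}
    (hg : g • (t : V) = t) (h : sm hq g s = s) : ∃ r ∈ R t, r • (s : V) = g • (s : V) := by
  obtain ⟨k, hk, h2⟩ := sm_spec hq g s
  rw [h] at h2
  have h1 := hact g _ _ hst
  rw [hg] at h1
  obtain ⟨u, hu, _, r, hr, h3⟩ := hS.max t t.2 _ h1
  have h4 : u = s := by
    refine hq.trans (k⁻¹ * r) (mul_mem (inv_mem hk) (Subgroup.mem_iSup_of_mem (t : V) hr)) u hu s s.2 ?_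
    rw [mul_smul, h3, h2, inv_smul_smul]
  exact ⟨r, hr, by rw [← h4, h3, h4]⟩

theorem mk_mem_one {H : Subgroup G} [H.Normal] {k g : G} (hk : k ∈ H) :
    (QuotientGroup.mk (k⁻¹ * g) : G ⧸ H) = QuotientGroup.mk g := by
  have h3 : (QuotientGroup.mk k : G ⧸ H) = 1 := (QuotientGroup.eq_one_iff k).2 hk
  rw [QuotientGroup.mk_mul, QuotientGroup.mk_inv, h3, inv_one, one_mul]

/-- the series of the quotient -/
theorem Ser1.quot {n : ℕ} (hT : T.IsTree)
    (hact : ∀ (g : G) (u v : V), T.Adj u v → T.Adj (g • u) (g • v)) (hM : Ser1 C T (n + 1) M)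
    (hS : Tv T (M 1) S) (hq : Tq T (⨆ v, M 1 v) S) [hn : (⨆ v, M 1 v).Normal] :
    @Ser C (G ⧸ ⨆ v, M 1 v) S _ (qa hq) (T.induce S) n
      (fun i s => (M (i + 1) s).map (QuotientGroup.mk' (⨆ v, M 1 v))) := by
  let _ := qa hq
  have hcf1 : CF T (M 1) := hM.cf 1 (by omega)
  have hmono : ∀ i, i ≤ n → ∀ v, M 1 v ≤ M (i + 1) v := by
    intro i
    induction i with
    | zero => exact fun _ _ => le_rfl
    | succ i ih => exact fun hi v => (ih (by omega) v).trans (hM.mono (i + 1) (by omega) v)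
  -- elements of the quotient fixing `s`
  have hfix : ∀ (x : G ⧸ ⨆ v, M 1 v) (s : S), x • s = s →
      ∃ g : G, (QuotientGroup.mk g : G ⧸ ⨆ v, M 1 v) = x ∧ g • (s : V) = s := by
    intro x s hx
    obtain ⟨g, rfl⟩ := QuotientGroup.mk_surjective x
    exact q_fix hq hx
  have hEs : ∀ (s t : S), T.Adj (s : V) t → Es (G ⧸ ⨆ v, M 1 v) s t =
      (Es G (s : V) t).map (QuotientGroup.mk' (⨆ v, M 1 v)) := by
    intro s t hst
    ext x
    constructor
    · rintro ⟨hx1, hx2⟩
      obtain ⟨g, rfl, hg⟩ := hfix x t hx2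
      obtain ⟨r, hr, hrs⟩ := q_edge hq hS hst.symm hact hg hx1
      refine ⟨r⁻¹ * g, ⟨?_, ?_⟩, mk_mem_one (Subgroup.mem_iSup_of_mem (t : V) hr)⟩
      · show (r⁻¹ * g) • (s : V) = s
        rw [mul_smul, ← hrs, inv_smul_smul]
      · show (r⁻¹ * g) • (t : V) = t
        rw [mul_smul, hg, inv_smul_eq_iff, hcf1.fix _ _ hr]
    · rintro ⟨g, ⟨hg1, hg2⟩, rfl⟩
      have hg1 : g • (s : V) = s := hg1
      have hg2 : g • (t : V) = t := hg2
      exact ⟨sm_eq hq (one_mem _) (by rw [one_smul, hg1]),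
        sm_eq hq (one_mem _) (by rw [one_smul, hg2])⟩
  have hcom : ∀ i, i < n → ∀ s t : S, (T.induce S).Adj s t →
      Es (G ⧸ ⨆ v, M 1 v) s t ⊓ (⁅(M (i + 1 + 1) s).map (QuotientGroup.mk' (⨆ v, M 1 v)),
        (M (i + 1 + 1) s).map (QuotientGroup.mk' (⨆ v, M 1 v))⁆ ⊔
          (M (i + 1) s).map (QuotientGroup.mk' (⨆ v, M 1 v))) ≤
            (M (i + 1) s).map (QuotientGroup.mk' (⨆ v, M 1 v)) ∨
      ((M (i + 1) s).map (QuotientGroup.mk' (⨆ v, M 1 v))).relIndex
        (Es (G ⧸ ⨆ v, M 1 v) s t) ≠ 0 := by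
    -- commutators
    intro i hi s t hst
    have hst : T.Adj (s : V) t := hst
    rcases hM.com1 (i + 1) (by omega) (by omega) s t hst with h | h
    · left
      rw [hEs s t hst, ← Subgroup.map_commutator, ← Subgroup.map_sup]
      rintro _ ⟨⟨e, he, rfl⟩, c, hc, hce⟩
      refine ⟨e, h ⟨he, ?_⟩, rfl⟩
      have hcs : c • (s : V) = s := by
        have hle : ⁅M (i + 1 + 1) (s : V), M (i + 1 + 1) (s : V)⁆ ⊔ M (i + 1) (s : V) ≤
            MulAction.stabilizer G (s : V) := by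
          have h1 : ∀ j, j ≤ n + 1 → M j (s : V) ≤ MulAction.stabilizer G (s : V) :=
            fun j hj m hm => (hM.cf j hj).fix _ _ hm
          refine sup_le (Subgroup.commutator_le.2 fun a ha b hb => ?_) (h1 _ (by omega))
          have ha' := h1 _ (by omega) ha
          have hb' := h1 _ (by omega) hb
          exact mul_mem (mul_mem (mul_mem ha' hb') (inv_mem ha')) (inv_mem hb')
        exact hle hc
      have h1 : c⁻¹ * e ∈ ⨆ v, M 1 v := QuotientGroup.eq.1 hce
      have h2 : (c⁻¹ * e) • (s : V) = s := by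
        have he1 : e • (s : V) = s := he.1
        rw [mul_smul, he1, inv_smul_eq_iff, hcs]
      have h3 := mul_mem hc (Subgroup.mem_sup_right (hmono i (by omega) _ (hcf1.inter hT hact h1 h2)))
      rwa [mul_inv_cancel_left] at h3
    · right
      rw [hEs s t hst]
      exact relIndex_map _ h
  refine ⟨⟨?_, ?_, ?_, ?_, fun i _ hi => hcom i hi, ?_⟩, hcom⟩
  · -- compatible families
    intro i hi
    have hcf := hM.cf (i + 1) (by omega)
    constructor
    · rintro s _ ⟨m, hm, rfl⟩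
      exact sm_eq hq (one_mem _) (by rw [one_smul, hcf.fix _ _ hm])
    · rintro x s _ ⟨m, hm, rfl⟩
      obtain ⟨g, rfl⟩ := QuotientGroup.mk_surjective x
      obtain ⟨k, hk, h2⟩ := sm_spec hq g s
      have h3 : k⁻¹ * (g * m * g⁻¹) * k ∈ M (i + 1) (sm hq g s : V) := by
        have h4 := hcf.eqv k⁻¹ _ _ (hcf.eqv g _ _ hm)
        rw [h2, inv_smul_smul, inv_inv] at h4
        exact h4
      refine ⟨k⁻¹ * (g * m * g⁻¹) * k, h3, ?_⟩
      have h5 : (QuotientGroup.mk k : G ⧸ ⨆ v, M 1 v) = 1 := (QuotientGroup.eq_one_iff k).2 hk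
      show (QuotientGroup.mk (k⁻¹ * (g * m * g⁻¹) * k) : G ⧸ ⨆ v, M 1 v) = _
      rw [QuotientGroup.mk_mul, QuotientGroup.mk_mul, QuotientGroup.mk_inv, h5, inv_one, one_mul,
        mul_one]
      rfl
    · rintro s t hst _ ⟨m, hm, rfl⟩ hms
      have hst : T.Adj (s : V) t := hst
      obtain ⟨r, hr, hrs⟩ := q_edge hq hS hst.symm hact (hcf.fix _ _ hm) hms
      refine ⟨r⁻¹ * m, hcf.cmp s t hst _ (mul_mem (inv_mem (hmono i hi _ hr)) hm) ?_,
        mk_mem_one (Subgroup.mem_iSup_of_mem (t : V) hr)⟩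
      rw [mul_smul, ← hrs, inv_smul_smul]
  · intro s
    rw [eq_bot_iff]
    rintro _ ⟨m, hm, rfl⟩
    exact (QuotientGroup.eq_one_iff m).2 (Subgroup.mem_iSup_of_mem (s : V) hm)
  · intro i hi s
    exact Subgroup.map_mono (hM.mono (i + 1) (by omega) s)
  · -- quotients
    intro i hi s
    obtain ⟨P, _, f, hP, hf⟩ := hM.quo (i + 1) (by omega) s
    obtain ⟨φ, hφ⟩ : ∃ φ : ↥(MulAction.stabilizer G (s : V)) →*
        ↥(MulAction.stabilizer (G ⧸ ⨆ v, M 1 v) s), ∀ x, (φ x : G ⧸ ⨆ v, M 1 v) =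
          QuotientGroup.mk (x : G) := by
      refine ⟨((QuotientGroup.mk' (⨆ v, M 1 v)).comp
        (Subgroup.subtype (MulAction.stabilizer G (s : V)))).codRestrict _ fun x => ?_, fun x => rfl⟩
      have hx : (x : G) • (s : V) = s := x.2
      exact sm_eq hq (one_mem _) (by rw [one_smul]; exact hx)
    have hsurj : Function.Surjective φ := by
      rintro ⟨x, hx⟩
      obtain ⟨g, rfl, hg⟩ := hfix x s hx
      exact ⟨⟨g, hg⟩, Subtype.ext (hφ _)⟩
    have hker : ∀ x, φ x = 1 → f x = 1 := by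
      intro x hx
      rw [hf]
      have h1 : (QuotientGroup.mk (x : G) : G ⧸ ⨆ v, M 1 v) = 1 := by
        rw [← hφ, hx]
        rfl
      exact hmono i hi _ (hcf1.inter hT hact ((QuotientGroup.eq_one_iff _).1 h1) x.2)
    obtain ⟨f', hf'⟩ : ∃ f' : ↥(MulAction.stabilizer (G ⧸ ⨆ v, M 1 v) s) →* P,
        ∀ x, f' (φ x) = f x :=
      ⟨MonoidHom.liftOfRightInverse φ _ (Function.rightInverse_surjInv hsurj) ⟨f, hker⟩,
        fun x => MonoidHom.liftOfRightInverse_comp_apply φ _ _ ⟨f, hker⟩ x⟩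
    refine ⟨P, inferInstance, f', hP, ?_⟩
    intro x
    obtain ⟨y, rfl⟩ := hsurj x
    rw [hf', hf, hφ]
    constructor
    · intro h
      exact ⟨_, h, rfl⟩
    · rintro ⟨m, hm, hmy⟩
      have h1 : m⁻¹ * (y : G) ∈ ⨆ v, M 1 v := QuotientGroup.eq.1 hmy
      have h2 : (m⁻¹ * (y : G)) • (s : V) = s := by
        have hy : (y : G) • (s : V) = s := y.2
        rw [mul_smul, hy, inv_smul_eq_iff, (hM.cf (i + 1) (by omega)).fix _ _ hm]
      have h3 := mul_mem hm (hmono i hi _ (hcf1.inter hT hact h1 h2))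
      rwa [mul_inv_cancel_left] at h3
  · rcases hM.top with h | ⟨P, _, f, hP, hf⟩
    · left
      intro s t hst
      have hst : T.Adj (s : V) t := hst
      rw [hEs s t hst]
      exact relIndex_map _ (h s t hst)
    · right
      have hle : (⨆ v, M 1 v) ≤ ⨆ v, M (n + 1) v := iSup_mono fun v => hmono n le_rfl v
      refine ⟨P, inferInstance, QuotientGroup.lift _ f fun g hg => (hf g).2 (hle hg), hP, ?_⟩
      intro x
      obtain ⟨g, rfl⟩ := QuotientGroup.mk_surjective x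
      have hcf := hM.cf (n + 1) le_rfl
      have h1 : (⨆ s : S, (M (n + 1) s).map (QuotientGroup.mk' (⨆ v, M 1 v))) =
          (⨆ v, M (n + 1) v).map (QuotientGroup.mk' (⨆ v, M 1 v)) := by
        rw [Subgroup.map_iSup]
        refine le_antisymm (iSup_le fun s => le_iSup (fun v =>
          (M (n + 1) v).map (QuotientGroup.mk' (⨆ v, M 1 v))) (s : V)) (iSup_le fun v => ?_)
        rintro _ ⟨m, hm, rfl⟩
        obtain ⟨h, hh, s, hs, rfl⟩ := hq.cover v
        have h2 := hcf.eqv h⁻¹ _ m hm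
        rw [inv_smul_smul, inv_inv] at h2
        refine Subgroup.mem_iSup_of_mem (⟨s, hs⟩ : S) ⟨_, h2, ?_⟩
        have h3 : (QuotientGroup.mk h : G ⧸ ⨆ v, M 1 v) = 1 := (QuotientGroup.eq_one_iff h).2 hh
        show (QuotientGroup.mk (h⁻¹ * m * h) : G ⧸ ⨆ v, M 1 v) = QuotientGroup.mk m
        rw [QuotientGroup.mk_mul, QuotientGroup.mk_mul, QuotientGroup.mk_inv, h3, inv_one, one_mul,
          mul_one]
      rw [h1]
      show f g = 1 ↔ _
      rw [hf]
      constructor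
      · intro h
        exact ⟨g, h, rfl⟩
      · rintro ⟨m, hm, hmg⟩
        have h2 : m⁻¹ * g ∈ ⨆ v, M 1 v := QuotientGroup.eq.1 hmg
        have h3 := mul_mem hm (hle h2)
        rwa [mul_inv_cancel_left] at h3

end ser

end Pool.Agent.J6H4.FJC
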