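import Pool.Agent.J6H4.FJC.Cmp

/-!
# The universal property of the group generated by a compatible family

Let `S` be a transversal of the orbits of the group `K` generated by the members `M v` of a compatible
family. Homomorphisms `M s → Γ` for the vertices `s` of `S`, which agree for the edges of `S`, extend to a
homomorphism `K → Γ`.
-/

set_option autoImplicit false

namespace Pool.Agent.J6H4.FJC

open SimpleGraph
open Pool.Agent.N509.TK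

variable {G V Γ : Type} {T : SimpleGraph V} [Group G] [MulAction G V] [Group Γ]
variable {M : V → Subgroup G} {S : Set V}

/-- `h = m₀ m₁ ⋯ mₙ` for a walk `x = x₀, x₁, …, xₙ = y` in `S` with `mᵢ ∈ M xᵢ`, and
`γ = ρ(m₀) ρ(m₁) ⋯ ρ(mₙ)` -/
inductive RepR (T : SimpleGraph V) (M : V → Subgroup G) (S : Set V) (ρ : ∀ v, M v →* Γ) :
    ℕ → V → G → Γ → V → Prop
  | nil {x : V} {m : G} (hx : x ∈ S) (hm : m ∈ M x) : RepR T M S ρ 0 x m (ρ x ⟨m, hm⟩) x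
  | cons {x u y : V} {m h : G} {γ : Γ} {n : ℕ} (hx : x ∈ S) (hxu : T.Adj x u) (hm : m ∈ M x)
      (h1 : RepR T M S ρ n u h γ y) : RepR T M S ρ (n + 1) x (m * h) (ρ x ⟨m, hm⟩ * γ) y

variable {ρ : ∀ v, M v →* Γ}

theorem RepR.left {n : ℕ} {x y : V} {h a : G} {γ : Γ} (hr : RepR T M S ρ n x h γ y)
    (ha : a ∈ M x) : RepR T M S ρ n x (a * h) (ρ x ⟨a, ha⟩ * γ) y := by
  cases hr with
  | nil h1 h2 =>
    have h3 := RepR.nil (T := T) (ρ := ρ) h1 (mul_mem ha h2)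
    have h4 : ρ x ⟨a * h, mul_mem ha h2⟩ = ρ x ⟨a, ha⟩ * ρ x ⟨h, h2⟩ := (ρ x).map_mul ⟨a, ha⟩ ⟨h, h2⟩
    rwa [h4] at h3
  | cons h1 h2 h3 h4 =>
    rename_i m h' γ' k
    have h5 := RepR.cons h1 h2 (mul_mem ha h3) h4
    have h6 : ρ x ⟨a * m, mul_mem ha h3⟩ = ρ x ⟨a, ha⟩ * ρ x ⟨m, h3⟩ :=
      (ρ x).map_mul ⟨a, ha⟩ ⟨m, h3⟩
    rw [h6, mul_assoc, mul_assoc] at h5
    exact h5

theorem RepR.memS {n : ℕ} {x y : V} {h : G} {γ : Γ} (hr : RepR T M S ρ n x h γ y) : x ∈ S := by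
  cases hr with
  | nil h1 _ => exact h1
  | cons h1 _ _ _ => exact h1

theorem RepR.append {n k : ℕ} {x y z : V} {h h' : G} {γ γ' : Γ} (hr : RepR T M S ρ n x h γ y)
    (hr' : RepR T M S ρ k y h' γ' z) : RepR T M S ρ (n + k) x (h * h') (γ * γ') z := by
  induction hr with
  | nil h1 h2 =>
    rw [Nat.zero_add]
    exact hr'.left h2
  | cons h1 h2 h3 h4 ih =>
    rw [mul_assoc, mul_assoc, Nat.add_right_comm]
    exact RepR.cons h1 h2 h3 (ih hr')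

theorem RepR.one {x : V} (hx : x ∈ S) : RepR T M S ρ 0 x 1 1 x := by
  have h1 := RepR.nil (T := T) (ρ := ρ) hx (one_mem (M x))
  have h2 : ρ x ⟨1, one_mem (M x)⟩ = 1 := (ρ x).map_one
  rwa [h2] at h1

theorem RepR.edge {x y : V} (hx : x ∈ S) (hy : y ∈ S) (hxy : T.Adj x y) :
    RepR T M S ρ 1 x 1 1 y := by
  have h1 := RepR.cons hx hxy (one_mem (M x)) (RepR.one (ρ := ρ) hy)
  have h2 : ρ x ⟨1, one_mem (M x)⟩ = 1 := (ρ x).map_one
  rwa [h2, mul_one, mul_one] at h1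

theorem RepR.ofWalk {x y : V} (p : T.Walk x y) (hp : ∀ z ∈ p.support, z ∈ S) :
    ∃ n, RepR T M S ρ n x 1 1 y := by
  induction p with
  | nil => exact ⟨0, RepR.one (hp _ (by simp))⟩
  | @cons a b c hab q ih =>
    obtain ⟨n, hn⟩ := ih fun z hz => hp z (by rw [Walk.support_cons]; exact List.mem_cons_of_mem _ hz)
    have h1 := (RepR.edge (ρ := ρ) (hp a (by simp)) (hp b (by simp)) hab).append hn
    rw [mul_one, mul_one] at h1
    exact ⟨_, h1⟩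

theorem RepR.inv {n : ℕ} {x y : V} {h : G} {γ : Γ} (hr : RepR T M S ρ n x h γ y) :
    ∃ k, RepR T M S ρ k y h⁻¹ γ⁻¹ x := by
  induction hr with
  | @nil x m h1 h2 =>
    have h3 := RepR.nil (T := T) (ρ := ρ) h1 (inv_mem h2)
    have h4 : ρ x ⟨m⁻¹, inv_mem h2⟩ = (ρ x ⟨m, h2⟩)⁻¹ := (ρ x).map_inv ⟨m, h2⟩
    rw [h4] at h3
    exact ⟨0, h3⟩
  | @cons x u y m h γ n h1 h2 h3 h4 ih =>
    obtain ⟨k, hk⟩ := ih
    have h5 := RepR.nil (T := T) (ρ := ρ) h1 (inv_mem h3)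
    have h6 : ρ x ⟨m⁻¹, inv_mem h3⟩ = (ρ x ⟨m, h3⟩)⁻¹ := (ρ x).map_inv ⟨m, h3⟩
    rw [h6] at h5
    have h7 := (hk.append (RepR.edge (ρ := ρ) h4.memS h1 h2.symm)).append h5
    rw [mul_one, mul_one, ← mul_inv_rev, ← mul_inv_rev] at h7
    exact ⟨_, h7⟩

theorem RepR.exists (hS : Tv T M S) {h : G} (hh : h ∈ ⨆ s : S, M s) :
    ∀ x ∈ S, ∀ y ∈ S, ∃ n γ, RepR T M S ρ n x h γ y := by
  refine Subgroup.iSup_induction (fun s : S => M s)
    (C := fun h => ∀ x ∈ S, ∀ y ∈ S, ∃ n γ, RepR T M S ρ n x h γ y) hh ?_ ?_ ?_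
  · intro s m hm x hx y hy
    obtain ⟨p, hp⟩ := hS.cvx x hx s s.2
    obtain ⟨q, hq⟩ := hS.cvx s s.2 y hy
    obtain ⟨n, hn⟩ := RepR.ofWalk (M := M) (ρ := ρ) p hp
    obtain ⟨k, hk⟩ := RepR.ofWalk (M := M) (ρ := ρ) q hq
    have h1 := hn.append (hk.left hm)
    rw [one_mul, mul_one, one_mul, mul_one] at h1
    exact ⟨_, _, h1⟩
  · intro x hx y hy
    obtain ⟨p, hp⟩ := hS.cvx x hx y hy
    obtain ⟨n, hn⟩ := RepR.ofWalk (M := M) (ρ := ρ) p hp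
    exact ⟨n, 1, hn⟩
  · intro a b ha hb x hx y hy
    obtain ⟨n, γ, hn⟩ := ha x hx y hy
    obtain ⟨k, γ', hk⟩ := hb y hy y hy
    exact ⟨_, _, hn.append hk⟩

/-- the homomorphisms agree for the edges of `S` -/
def Agree (T : SimpleGraph V) (M : V → Subgroup G) (S : Set V) (ρ : ∀ v, M v →* Γ) : Prop :=
  ∀ s ∈ S, ∀ t ∈ S, T.Adj s t → ∀ (m : G) (h1 : m ∈ M s) (h2 : m ∈ M t),
    ρ s ⟨m, h1⟩ = ρ t ⟨m, h2⟩

/-- a shortest representation of positive length gives the first step of the path from `x` to `h • y` -/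
theorem RepR.step (hT : T.IsTree)
    (hact : ∀ (g : G) (u v : V), T.Adj u v → T.Adj (g • u) (g • v)) (hM : CF T M)
    (hS : Tv T M S) (hρ : Agree T M S ρ) {n : ℕ} {x y : V} {h : G} {γ : Γ}
    (hr : RepR T M S ρ n x h γ y)
    (hmin : ∀ k < n, ¬ RepR T M S ρ k x h γ y) (hn : n ≠ 0) :
    ∃ m, ∃ hm : m ∈ M x, ∃ u ∈ S, T.Adj x u ∧ (∃ (k : ℕ) (h' : G) (γ' : Γ), k + 1 = n ∧
      RepR T M S ρ k u h' γ' y ∧ h = m * h' ∧ γ = ρ x ⟨m, hm⟩ * γ') ∧ St T x (m • u) (h • y) := by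
  induction hr with
  | nil _ _ => exact absurd rfl hn
  | @cons x u y m h γ n hx hxu hm hr ih =>
    have hmin' : ∀ k < n, ¬ RepR T M S ρ k u h γ y := fun k hk hk' =>
      hmin (k + 1) (Nat.succ_lt_succ hk) (RepR.cons hx hxu hm hk')
    have huS := hr.memS
    refine ⟨m, hm, u, huS, hxu, ⟨n, h, γ, rfl, hr, rfl, rfl⟩, ?_⟩
    have key : St T x u (h • y) := by
      rcases Nat.eq_zero_or_pos n with h0 | hpos
      · subst h0
        cases hr with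
        | nil _ h2 =>
          rw [hM.fix _ _ h2]
          exact St_adj hxu
      · obtain ⟨m', hm', u', hu', huu', ⟨k, h', γ', hk, hr', hh', hγ'⟩, hst⟩ := ih hmin' hpos.ne'
        refine St_trans hT hst (St_adj hxu.symm) ?_ (St_adj hxu)
        intro heq
        -- `m' • u' = x`
        have h1 : u' = x := hS.lc u huS u' hu' x hx huu' hxu.symm m' hm' heq
        subst h1
        have h2 : m' ∈ M u' := hM.cmp u' u hxu m' hm' heq
        refine hmin k (by omega) ?_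
        have h3 := hr'.left (mul_mem hm h2)
        have h4 : ρ u' ⟨m * m', mul_mem hm h2⟩ = ρ u' ⟨m, hm⟩ * ρ u' ⟨m', h2⟩ :=
          (ρ u').map_mul ⟨m, hm⟩ ⟨m', h2⟩
        rw [h4, hρ u' hu' u huS hxu m' h2 hm', mul_assoc, mul_assoc, ← hh', ← hγ'] at h3
        exact h3
    have h3 := St_smul hact m key
    rw [hM.fix _ _ hm, ← mul_smul] at h3
    exact h3

theorem RepR.uniq (hT : T.IsTree)
    (hact : ∀ (g : G) (u v : V), T.Adj u v → T.Adj (g • u) (g • v)) (hM : CF T M)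
    (hS : Tv T M S) (hρ : Agree T M S ρ) {n : ℕ} {x : V} {h : G} {γ : Γ}
    (hr : RepR T M S ρ n x h γ x) (hh : h ∈ M x) : γ = ρ x ⟨h, hh⟩ := by
  classical
  have hex : ∃ n, RepR T M S ρ n x h γ x := ⟨n, hr⟩
  obtain ⟨n, hn, hmin⟩ : ∃ n, RepR T M S ρ n x h γ x ∧ ∀ k < n, ¬ RepR T M S ρ k x h γ x :=
    ⟨Nat.find hex, Nat.find_spec hex, fun k hk => Nat.find_min hex hk⟩
  by_cases h0 : n = 0
  · subst h0
    cases hn with
    | nil _ h2 => rfl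
  · obtain ⟨m, _, u, _, _, _, hst⟩ := hn.step hT hact hM hS hρ hmin h0
    rw [hM.fix _ _ hh] at hst
    exact absurd rfl hst.ne

/-- **the universal property** -/
theorem exists_ext (hT : T.IsTree)
    (hact : ∀ (g : G) (u v : V), T.Adj u v → T.Adj (g • u) (g • v)) (hM : CF T M)
    (hS : Tv T M S) (hρ : Agree T M S ρ) :
    ∃ r : ↥(⨆ v, M v) →* Γ, ∀ s ∈ S, ∀ (m : ↥(⨆ v, M v)) (hm : (m : G) ∈ M s),
      r m = ρ s ⟨m, hm⟩ := by
  obtain ⟨o, ho⟩ := hS.ne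
  have hex : ∀ h : ↥(⨆ v, M v), ∃ γ, ∃ n, RepR T M S ρ n o h γ o := by
    intro h
    have h1 : (h : G) ∈ ⨆ s : S, M s := by
      rw [← iSup_eq hT hact hM hS]
      exact h.2
    obtain ⟨n, γ, h2⟩ := RepR.exists (ρ := ρ) hS h1 o ho o ho
    exact ⟨γ, n, h2⟩
  choose f hf using hex
  have huniq : ∀ (h : ↥(⨆ v, M v)) (γ : Γ) (n : ℕ), RepR T M S ρ n o h γ o → f h = γ := by
    intro h γ n hr
    obtain ⟨k, hk⟩ := hf h
    obtain ⟨l, hl⟩ := hr.inv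
    have h1 := hk.append hl
    rw [mul_inv_cancel] at h1
    have h2 := h1.uniq hT hact hM hS hρ (one_mem _)
    have h3 : ρ o ⟨1, one_mem (M o)⟩ = 1 := (ρ o).map_one
    rw [h3] at h2
    exact mul_inv_eq_one.1 h2
  refine ⟨{ toFun := f, map_one' := huniq 1 1 0 (RepR.one ho), map_mul' := fun a b => ?_ }, ?_⟩
  · obtain ⟨k, hk⟩ := hf a
    obtain ⟨l, hl⟩ := hf b
    exact huniq _ _ _ (hk.append hl)
  · intro s hs m hm
    obtain ⟨p, hp⟩ := hS.cvx o ho s hs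
    obtain ⟨q, hq⟩ := hS.cvx s hs o ho
    obtain ⟨n, hn⟩ := RepR.ofWalk (M := M) (ρ := ρ) p hp
    obtain ⟨k, hk⟩ := RepR.ofWalk (M := M) (ρ := ρ) q hq
    have h1 := hn.append (hk.left hm)
    rw [one_mul, mul_one, one_mul, mul_one] at h1
    exact huniq _ _ _ h1

end Pool.Agent.J6H4.FJC
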