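import Pool.Agent.J6H4.FJC.Fin
import Pool.Agent.R941.FJ.Lfk

/-!
# Retracts and functorial subgroups
-/

set_option autoImplicit false

namespace Pool.Agent.J6H4.FJC

open SimpleGraph
open Pool.Agent.Y110.FJ
open Pool.Agent.N509.TX (AcylF)
open Pool.Agent.N431.CE (Es)

variable {C : ∀ (G : Type) [Group G], Prop}
variable {G V : Type} [Group G] [MulAction G V] {T : SimpleGraph V}

/-- the common kernel of the actions on the set with `k` elements -/
def Ik (k : ℕ) (N : Type) [Group N] : Subgroup N := ⨅ f : N →* Equiv.Perm (Fin k), f.ker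

theorem mem_Ik {k : ℕ} {N : Type} [Group N] {x : N} :
    x ∈ Ik k N ↔ ∀ f : N →* Equiv.Perm (Fin k), f x = 1 := by
  unfold Ik
  simp only [Subgroup.mem_iInf, MonoidHom.mem_ker]

/-- functorial subgroups -/
def Fct (F : ∀ (N : Type) [Group N], Subgroup N) : Prop :=
  ∀ (N N' : Type) [Group N] [Group N'] (f : N →* N'), ∀ x ∈ F N, f x ∈ F N'

theorem Ik_Fct (k : ℕ) : Fct (Ik k) := by
  intro N N' _ _ f x hx
  rw [mem_Ik] at hx ⊢
  exact fun g => hx (g.comp f)

theorem Ik_anti {k l : ℕ} (h : k ≤ l) (N : Type) [Group N] : Ik l N ≤ Ik k N := by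
  intro x hx
  rw [mem_Ik] at hx ⊢
  intro f
  have h1 := hx ((Equiv.Perm.viaEmbeddingHom (Fin.castLEEmb h)).comp f)
  exact Equiv.Perm.viaEmbeddingHom_injective (Fin.castLEEmb h) (h1.trans (map_one _).symm)

theorem Ik_index (k : ℕ) (N : Type) [Group N] (hfg : Group.FG N) : (Ik k N).index ≠ 0 := by
  obtain ⟨S, hS⟩ := Group.fg_def.1 hfg
  have hfin : Finite (N →* Equiv.Perm (Fin k)) := by
    refine Finite.of_injective (fun (f : N →* Equiv.Perm (Fin k)) (s : S) => f s) ?_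
    intro f g hfg
    refine MonoidHom.eq_of_eqOn_dense hS fun x hx => ?_
    exact congrFun hfg ⟨x, hx⟩
  refine Subgroup.index_iInf_ne_zero fun f => ?_
  rw [Subgroup.index_ker]
  exact Nat.card_pos.ne'

theorem Ik_le {N : Type} [Group N] (H : Subgroup N) (hH : H.index ≠ 0) : Ik H.index N ≤ H := by
  intro x hx
  rw [mem_Ik] at hx
  have hfin : Finite (N ⧸ H) := Nat.finite_of_card_ne_zero hH
  have e : N ⧸ H ≃ Fin H.index := Finite.equivFinOfCardEq rfl
  have h1 := hx ((e.permCongrHom.toMonoidHom).comp (MulAction.toPermHom N (N ⧸ H)))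
  have h2 : MulAction.toPermHom N (N ⧸ H) x = 1 := by
    refine e.permCongrHom.injective ?_
    rw [map_one]
    exact h1
  have h3 : x • (QuotientGroup.mk (1 : N) : N ⧸ H) = QuotientGroup.mk (1 : N) :=
    DFunLike.congr_fun h2 (QuotientGroup.mk (1 : N) : N ⧸ H)
  have h4 : (QuotientGroup.mk (x * 1) : N ⧸ H) = QuotientGroup.mk (1 : N) := h3
  rw [mul_one, QuotientGroup.eq, mul_one] at h4
  exact (Subgroup.inv_mem_iff H).1 h4

/-- the family given by a functorial subgroup -/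
def fam (F : ∀ (N : Type) [Group N], Subgroup N) (N : V → Subgroup G) (v : V) : Subgroup G :=
  (F (N v)).map (N v).subtype

omit [MulAction G V] in
theorem fam_le (F : ∀ (N : Type) [Group N], Subgroup N) (N : V → Subgroup G) (v : V) :
    fam F N v ≤ N v := by
  rintro _ ⟨x, _, rfl⟩
  exact x.2

omit [MulAction G V] in
theorem fam_of {F : ∀ (N : Type) [Group N], Subgroup N} (hF : Fct F) {N : V → Subgroup G} {v : V}
    {A : Subgroup G} (hA : A ≤ N v) {x : A} (hx : x ∈ F A) : (x : G) ∈ fam F N v :=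
  ⟨_, hF _ _ (Subgroup.inclusion hA) x hx, rfl⟩

theorem Ret.fct {F : ∀ (N : Type) [Group N], Subgroup N} (hF : Fct F) {N E : Subgroup G}
    (h : Ret N E) {x : N} (hx : (x : G) ∈ E) (hj : x ∈ F N) :
    (⟨x, x.2, hx⟩ : ↥(N ⊓ E)) ∈ F ↥(N ⊓ E) := by
  obtain ⟨ρ, h1, h2⟩ := h
  have h3 := hF _ _ (ρ.codRestrict (N ⊓ E) h1) x hj
  have h4 : (ρ.codRestrict (N ⊓ E) h1) x = ⟨x, x.2, hx⟩ := Subtype.ext (h2 x hx)
  rwa [h4] at h3

theorem fam_CF {F : ∀ (N : Type) [Group N], Subgroup N} (hF : Fct F) {N : V → Subgroup G}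
    (hN : CF T N) (hR : ∀ v u : V, T.Adj v u → Ret (N v) (Es G v u)) : CF T (fam F N) := by
  refine hN.functor F (fun N N' _ _ e x hx => hF N N' e.toMonoidHom x hx) ?_
  intro u v huv x hx hxu
  have h1 : (x : G) ∈ Es G v u := ⟨hN.fix v _ x.2, hxu⟩
  have h2 := (hR v u huv.symm).fct hF h1 hx
  have hle : N v ⊓ Es G v u ≤ N u := fun y hy => hN.cmp u v huv y hy.1 hy.2.2
  exact fam_of hF hle h2

/-- the series given by functorial subgroups -/
theorem ret_ser {N : V → Subgroup G} (hN : CF T N)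
    (hR : ∀ v u : V, T.Adj v u → Ret (N v) (Es G v u))
    {F : ℕ → ∀ (N : Type) [Group N], Subgroup N} (hF : ∀ i, Fct (F i)) {n : ℕ}
    (h0 : ∀ (N : Type) [Group N], F 0 N = ⊥)
    (hmono : ∀ i, i < n → ∀ (N : Type) [Group N], F i N ≤ F (i + 1) N)
    (hquo : ∀ i, i ≤ n → ∀ v, Qn C (MulAction.stabilizer G v) (fam (F i) N v))
    {Φ : Set (V × V)} (hΦ : ∀ e ∈ Φ, T.Adj e.1 e.2)
    (hcom : ∀ i, i < n → ∀ v u : V, (v, u) ∈ Φ →
      ⁅F (i + 1) ↥(N v ⊓ Es G v u), F (i + 1) ↥(N v ⊓ Es G v u)⁆ ≤ F i ↥(N v ⊓ Es G v u) ∨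
        (fam (F i) N v).relIndex (Es G v u) ≠ 0) :
    SerV C T Φ n (fun i => fam (F i) N) := by
  refine ⟨fun i _ => fam_CF (hF i) hN hR, fun v => ?_, fun i hi v =>
    Subgroup.map_mono (hmono i hi _), hquo, fun i hi v u hvu => ?_⟩
  · show (F 0 (N v)).map _ = ⊥
    rw [h0, Subgroup.map_bot]
  · rcases hcom i hi v u hvu with h | h
    swap
    · exact Or.inr h
    left
    have hF' : Fct (fun (N : Type) [Group N] => ⁅F (i + 1) N, F (i + 1) N⁆ ⊔ F i N) := by
      intro N N' _ _ f x hx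
      have h1 : (⁅F (i + 1) N, F (i + 1) N⁆ ⊔ F i N).map f ≤
          ⁅F (i + 1) N', F (i + 1) N'⁆ ⊔ F i N' := by
        rw [Subgroup.map_sup, Subgroup.map_commutator]
        have h2 : ∀ j, (F j N).map f ≤ F j N' := by
          rintro j _ ⟨y, hy, rfl⟩
          exact hF j N N' f y hy
        exact sup_le_sup (Subgroup.commutator_mono (h2 _) (h2 _)) (h2 _)
      exact h1 ⟨x, hx, rfl⟩
    have h1 : ⁅fam (F (i + 1)) N v, fam (F (i + 1)) N v⁆ ⊔ fam (F i) N v =
        fam (fun (N : Type) [Group N] => ⁅F (i + 1) N, F (i + 1) N⁆ ⊔ F i N) N v := by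
      show _ = (⁅F (i + 1) (N v), F (i + 1) (N v)⁆ ⊔ F i (N v)).map _
      rw [Subgroup.map_sup, Subgroup.map_commutator]
      rfl
    rw [h1]
    rintro _ ⟨hx, y, hy, rfl⟩
    have h2 := (hR v u (hΦ _ hvu)).fct hF' hx hy
    have h3 : (⟨y, y.2, hx⟩ : ↥(N v ⊓ Es G v u)) ∈ F i ↥(N v ⊓ Es G v u) :=
      sup_le h le_rfl h2
    exact fam_of (hF i) inf_le_left h3

/-- quotients by smaller subgroups with locally finite factor -/
theorem Qn.lf (hC : ClosedE C) {H K L : Subgroup G} (hKL : K ≤ L) (hn : (K.subgroupOf H).Normal)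
    (hL : ∀ A : Subgroup G, A ≤ L → A.FG → K.relIndex A ≠ 0) (h : Qn C H L) : Qn C H K := by
  obtain ⟨P, _, f, hP, hf⟩ := h
  refine ⟨H ⧸ K.subgroupOf H, inferInstance, QuotientGroup.mk' _, ?_,
    fun x => QuotientGroup.eq_one_iff x⟩
  obtain ⟨f', hf'⟩ : ∃ f' : H ⧸ K.subgroupOf H →* P, ∀ x, f' (QuotientGroup.mk x) = f x :=
    ⟨QuotientGroup.lift _ f fun x hx => (hf x).2 (hKL hx), fun x => rfl⟩
  refine Pool.Agent.R941.FJ.lfk hC f'.ker ?_
    (hC.base.of_injective _ _ (QuotientGroup.kerLift f') (QuotientGroup.kerLift_injective f') hP)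
  intro E hE hEN
  obtain ⟨E', hE', rfl⟩ : ∃ E' : Set H, E'.Finite ∧ QuotientGroup.mk' (K.subgroupOf H) '' E' = E := by
    refine ⟨Quotient.out '' E, hE.image _, ?_⟩
    rw [Set.image_image]
    refine (Set.image_congr fun x _ => ?_).trans (Set.image_id E)
    exact QuotientGroup.out_eq' x
  rw [← MonoidHom.map_closure]
  have h1 : (K.subgroupOf H).relIndex (Subgroup.closure E') ≠ 0 := by
    have h2 := hL ((Subgroup.closure E').map H.subtype) ?_ ?_
    · rwa [← Subgroup.relIndex_comap] at h2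
    · rw [Subgroup.map_le_iff_le_comap, Subgroup.closure_le]
      intro x hx
      have h3 : f' (QuotientGroup.mk x) = 1 := hEN ⟨x, hx, rfl⟩
      rw [hf'] at h3
      exact (hf x).1 h3
    · rw [MonoidHom.map_closure]
      exact (Subgroup.fg_iff _).2 ⟨_, rfl, hE'.image _⟩
  have h3 : Nat.card ((Subgroup.closure E').map (QuotientGroup.mk' (K.subgroupOf H))) ≠ 0 := by
    rwa [← Subgroup.relIndex_ker, QuotientGroup.ker_mk']
  exact Nat.finite_of_card_ne_zero h3

end Pool.Agent.J6H4.FJC
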